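import Pool.Agent.Helper65.Res.Exact
import Pool.Agent.Helper28.Res.A0
import Pool.Agent.Helper28.Res.T3

/-!
# Route A, leaf LA2: the exact identity in the frame of `A0.lean`, and the counting identities
for `m2` and `m3`
-/

namespace RouteA

open Finset Res12

set_option linter.unusedSectionVars false

variable {V : Type} [Fintype V] [DecidableEq V]

/-- a sum over the sets with `k + 1` elements, by one of the elements -/
theorem sum_step {α : Type} [DecidableEq α] {M : Type} [AddCommMonoid M] (P : Finset α) (k : ℕ)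
    (X : Finset α → M) :
    ∑ e ∈ P, ∑ S ∈ (P.erase e).powersetCard k, X (insert e S) =
      (k + 1) • ∑ S ∈ P.powersetCard (k + 1), X S := by
  classical
  have h1 : ∀ e ∈ P, ∑ S ∈ (P.erase e).powersetCard k, X (insert e S) =
      ∑ S ∈ P.powersetCard (k + 1), if e ∈ S then X S else 0 := by
    intro e he
    rw [← Finset.sum_filter]
    refine Finset.sum_bij (fun S _ => insert e S) ?_ ?_ ?_ ?_
    · intro S hS
      rw [mem_powersetCard] at hS
      have heS : e ∉ S := fun h => Finset.notMem_erase e P (hS.1 h)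
      rw [mem_filter, mem_powersetCard, card_insert_of_notMem heS, hS.2]
      refine ⟨⟨?_, rfl⟩, mem_insert_self _ _⟩
      intro z hz
      rw [mem_insert] at hz
      rcases hz with rfl | hz
      · exact he
      · exact mem_of_mem_erase (hS.1 hz)
    · intro S hS S' hS' h
      rw [mem_powersetCard] at hS hS'
      have heS : e ∉ S := fun h => Finset.notMem_erase e P (hS.1 h)
      have heS' : e ∉ S' := fun h => Finset.notMem_erase e P (hS'.1 h)
      have h' : insert e S = insert e S' := h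
      rw [← Finset.erase_insert heS, h', Finset.erase_insert heS']
    · intro S hS
      rw [mem_filter, mem_powersetCard] at hS
      refine ⟨S.erase e, ?_, Finset.insert_erase hS.2⟩
      rw [mem_powersetCard, card_erase_of_mem hS.2, hS.1.2]
      exact ⟨Finset.erase_subset_erase e hS.1.1, rfl⟩
    · intro S _
      rfl
  rw [Finset.sum_congr rfl h1, Finset.sum_comm, Finset.smul_sum]
  refine Finset.sum_congr rfl fun S hS => ?_
  rw [mem_powersetCard] at hS
  rw [← Finset.sum_filter, Finset.filter_mem_eq_inter, Finset.inter_eq_right.2 hS.1,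
    Finset.sum_const, hS.2]

/-- twice a sum over the pairs -/
theorem sum_two {α : Type} [DecidableEq α] (P : Finset α) (X : Finset α → ℤ) :
    2 * ∑ S ∈ P.powersetCard 2, X S = ∑ e ∈ P, ∑ f ∈ P.erase e, X {e, f} := by
  have h := sum_step P 1 X
  rw [nsmul_eq_mul] at h
  push_cast at h
  rw [← h]
  refine Finset.sum_congr rfl fun e _ => ?_
  rw [Finset.powersetCard_one, Finset.sum_map]
  rfl

/-- six times a sum over the triples -/
theorem sum_three {α : Type} [DecidableEq α] (P : Finset α) (X : Finset α → ℤ) :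
    6 * ∑ S ∈ P.powersetCard 3, X S =
      ∑ e ∈ P, ∑ f ∈ P.erase e, ∑ g ∈ (P.erase e).erase f, X {e, f, g} := by
  have h := sum_step P 2 X
  rw [nsmul_eq_mul] at h
  push_cast at h
  have h2 : ∑ e ∈ P, ∑ f ∈ P.erase e, ∑ g ∈ (P.erase e).erase f, X {e, f, g} =
      2 * ∑ e ∈ P, ∑ S ∈ (P.erase e).powersetCard 2, X (insert e S) := by
    rw [Finset.mul_sum]
    refine Finset.sum_congr rfl fun e _ => ?_
    rw [sum_two (P.erase e) (fun S => X (insert e S))]
  rw [h2, h]
  ring

section
variable {F P S : Finset (Finset V)} {s j : ℕ} {x y a b : V} {e f : Finset V}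

theorem bl_of_sub (hm : IsMatching P) (hS : S ⊆ P) {t : Finset V} (ht : t ⊆ VS S) :
    bl S t = bl P t := by
  ext c
  rw [mem_bl, mem_bl]
  constructor
  · rintro ⟨h1, h2⟩
    exact ⟨hS h1, h2⟩
  · rintro ⟨h1, h2⟩
    exact ⟨bl_sub hm hS ht (mem_bl.2 ⟨h1, h2⟩), h2⟩

theorem mis_eq (hm : IsMatching P) (hS : S ⊆ P) :
    mis F S = (tr 3 P S).filter (fun t => t ∉ F) := by
  ext t
  unfold mis
  rw [mem_filter, mem_filter, mem_tr, mem_powersetCard]
  constructor
  · rintro ⟨⟨h1, h2⟩, h3, h4⟩
    refine ⟨⟨h1.trans (VS_mono hS), h2, ?_⟩, h3⟩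
    rw [← bl_of_sub hm hS h1, h4]
  · rintro ⟨⟨h1, h2, h3⟩, h4⟩
    have h5 : t ⊆ VS S := by
      have := sub_bl h1
      rwa [h3] at this
    refine ⟨⟨h5, h2⟩, h4, ?_⟩
    rw [bl_of_sub hm hS h5, h3]

theorem mis_card (hm : IsMatching P) (hS : S ⊆ P) : (mis F S).card = miss F P S := by
  rw [mis_eq hm hS]
  rfl

theorem dW_pair (F P : Finset (Finset V)) (a b : V) :
    dW F P a b = Res12.dW F (VS P) {a, b} := by
  unfold dW Res12.dW
  congr 1
  ext w
  rw [mem_sdiff, mem_filter, mem_sdiff, mem_N]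
  have h : ({a, b, w} : Finset V) = insert w {a, b} := by
    ext z
    simp only [mem_insert, mem_singleton]
    tauto
  rw [h]
  constructor
  · rintro ⟨h1, h2⟩
    exact ⟨⟨mem_univ _, h2⟩, h1⟩
  · rintro ⟨⟨-, h2⟩, h1⟩
    exact ⟨h1, h2⟩

theorem dg_eq_ex (F : Finset (Finset V)) (U p : Finset V) : Helper28.Res.dg F U p = ex F U p := rfl

/-- **LA2**, first part. -/
theorem SetUp.exact (h : SetUp F s j P x y) :
    (F.card : ℤ) - ((3 * s + 2).choose 3 : ℤ) = ∑ e ∈ P, ((Res83.A F P {e} : ℤ) - 10) +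
      ∑ S ∈ P.powersetCard 2, ((Res83.A F P S : ℤ) - 36) -
      ∑ S ∈ P.powersetCard 3, ((mis F S).card : ℤ) := by
  have h1 := card_blocks h.three h.sub h.mat h.bl_nonempty
  rw [h.card] at h1
  rw [h1]
  congr 1
  refine Finset.sum_congr rfl fun S hS => ?_
  rw [mis_card h.mat (mem_powersetCard.1 hS).1]

/-- **LA2**, pairs of blocks. -/
theorem SetUp.A_pair (h : SetUp F s j P x y) (he : e ∈ P) (hf : f ∈ P) (hef : e ≠ f) :
    (Res83.A F P {e, f} : ℤ) - 36 = ∑ a ∈ e, ∑ b ∈ f, lam F P a b - (mis F {e, f}).card := by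
  have h1 := A_two h.three h.sub h.mat h.bl_nonempty he hf hef
  have hsub : ({e, f} : Finset (Finset V)) ⊆ P := by
    intro c hc
    rw [mem_insert, mem_singleton] at hc
    rcases hc with rfl | rfl
    · exact he
    · exact hf
  rw [mis_card h.mat hsub]
  have h2 : ∑ a ∈ e, ∑ b ∈ f, lam F P a b =
      (∑ a ∈ e, ∑ b ∈ f, Res12.dW F (VS P) {a, b} : ℕ) - 18 := by
    push_cast
    have h3 : ∀ a b, lam F P a b = (Res12.dW F (VS P) {a, b} : ℤ) - 2 := by
      intro a b
      unfold lam
      rw [dW_pair]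
    simp only [h3, Finset.sum_sub_distrib, Finset.sum_const, h.threeP e he, h.threeP f hf]
    norm_num
  rw [h2]
  push_cast
  zify at h1
  linarith

/-- **LA2**, blocks. -/
theorem SetUp.A_block (h : SetUp F s j P x y) (he : e ∈ P) :
    (Res83.A F P {e} : ℤ) - 10 =
      ∑ p ∈ e.powersetCard 2, ((Helper28.Res.dg F (VS P) p : ℤ) - 2) +
      ∑ p ∈ e.powersetCard 1, (Helper28.Res.dg F (VS P) p : ℤ) - 3 := by
  have h1 := A_one h.three h.sub h.mat h.bl_nonempty he
  have h2 : ∑ p ∈ e.powersetCard 2, ((Helper28.Res.dg F (VS P) p : ℤ) - 2) =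
      (∑ p ∈ e.powersetCard 2, Res12.dW F (VS P) p : ℕ) - 6 := by
    rw [Finset.sum_sub_distrib, Finset.sum_const, card_powersetCard, h.threeP e he]
    push_cast
    have : ∀ p ∈ e.powersetCard 2, (Helper28.Res.dg F (VS P) p : ℤ) = Res12.dW F (VS P) p := by
      intro p hp
      rw [mem_powersetCard] at hp
      rw [dg_eq_ex, ex_two h.three (hp.1.trans (subset_VS he)) hp.2]
    rw [Finset.sum_congr rfl this]
    norm_num [Nat.choose]
  have h3 : ∑ p ∈ e.powersetCard 1, (Helper28.Res.dg F (VS P) p : ℤ) =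
      (∑ v ∈ e, gW F (VS P) v : ℕ) := by
    push_cast
    rw [Finset.powersetCard_one, Finset.sum_map]
    refine Finset.sum_congr rfl fun v hv => ?_
    rw [dg_eq_ex]
    exact_mod_cast ex_one h.three (subset_VS he hv)
  rw [h2, h3, h1]
  push_cast
  ring

/-- a missing triple of two blocks meets them in one and two points -/
theorem mis_two (hm : IsMatching P) (he : e ∈ P) (hf : f ∈ P) (hef : e ≠ f) {t : Finset V}
    (ht : t ∈ mis F {e, f}) : (e.filter (· ∈ t)).card * (f.filter (· ∈ t)).card = 2 := by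
  classical
  unfold mis at ht
  rw [mem_filter, mem_powersetCard] at ht
  obtain ⟨⟨h1, h2⟩, -, h4⟩ := ht
  have hd := hm e he f hf hef
  have hE : e.filter (· ∈ t) = e ∩ t := Finset.filter_mem_eq_inter
  have hF : f.filter (· ∈ t) = f ∩ t := Finset.filter_mem_eq_inter
  rw [hE, hF]
  have ha : 1 ≤ (e ∩ t).card := by
    have : e ∈ bl {e, f} t := by rw [h4]; simp
    rw [Nat.one_le_iff_ne_zero, ← Nat.pos_iff_ne_zero, Finset.card_pos,
      ← Finset.not_disjoint_iff_nonempty_inter]
    exact (mem_bl.1 this).2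
  have hb : 1 ≤ (f ∩ t).card := by
    have : f ∈ bl {e, f} t := by rw [h4]; simp
    rw [Nat.one_le_iff_ne_zero, ← Nat.pos_iff_ne_zero, Finset.card_pos,
      ← Finset.not_disjoint_iff_nonempty_inter]
    exact (mem_bl.1 this).2
  have hs : (e ∩ t).card + (f ∩ t).card = 3 := by
    rw [← h2, ← card_union_of_disjoint (hd.mono inter_subset_left inter_subset_left)]
    congr 1
    ext z
    rw [mem_union, mem_inter, mem_inter]
    constructor
    · rintro (h | h)
      · exact h.2
      · exact h.2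
    · intro hz
      obtain ⟨c, hc, hzc⟩ := mem_VS.1 (h1 hz)
      rw [mem_insert, mem_singleton] at hc
      rcases hc with rfl | rfl
      · exact Or.inl ⟨hzc, hz⟩
      · exact Or.inr ⟨hzc, hz⟩
  have hcase : ((e ∩ t).card = 1 ∧ (f ∩ t).card = 2) ∨ ((e ∩ t).card = 2 ∧ (f ∩ t).card = 1) := by
    omega
  rcases hcase with ⟨h5, h6⟩ | ⟨h5, h6⟩ <;> rw [h5, h6]

theorem card_m2 (hm : IsMatching P) (he : e ∈ P) (hf : f ∈ P) (hef : e ≠ f) (ha : a ∈ e)
    (hb : b ∈ f) :
    (m2 F e f a b).card = ((mis F {e, f}).filter (fun t => a ∈ t ∧ b ∈ t)).card := by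
  classical
  have hd := hm e he f hf hef
  have hab : a ≠ b := fun h => Finset.disjoint_left.1 hd ha (by rw [h]; exact hb)
  have hVS : VS ({e, f} : Finset (Finset V)) = e ∪ f := by
    unfold VS
    simp
  refine Finset.card_bij (fun z _ => ({a, b, z} : Finset V)) ?_ ?_ ?_
  · intro z hz
    unfold m2 at hz
    rw [mem_filter, mem_sdiff, mem_insert, mem_singleton, not_or] at hz
    obtain ⟨⟨hz1, hza, hzb⟩, hz2⟩ := hz
    rw [mem_filter]
    refine ⟨?_, by simp, by simp⟩
    unfold mis
    rw [mem_filter, mem_powersetCard, hVS]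
    refine ⟨⟨?_, ?_⟩, hz2, ?_⟩
    · intro w hw
      simp only [mem_insert, mem_singleton] at hw
      rcases hw with rfl | rfl | rfl
      · exact mem_union_left _ ha
      · exact mem_union_right _ hb
      · exact hz1
    · rw [card_eq_three]
      exact ⟨a, b, z, hab, Ne.symm hza, Ne.symm hzb, rfl⟩
    · apply Finset.Subset.antisymm (bl_subset _ _)
      intro c hc
      rw [mem_insert, mem_singleton] at hc
      rcases hc with rfl | rfl
      · exact mem_bl.2 ⟨by simp, Finset.not_disjoint_iff.2 ⟨a, ha, by simp⟩⟩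
      · exact mem_bl.2 ⟨by simp, Finset.not_disjoint_iff.2 ⟨b, hb, by simp⟩⟩
  · intro z hz z' hz' h
    unfold m2 at hz hz'
    rw [mem_filter, mem_sdiff, mem_insert, mem_singleton, not_or] at hz hz'
    have h' : ({a, b, z} : Finset V) = {a, b, z'} := h
    have h1 : z ∈ ({a, b, z'} : Finset V) := by rw [← h']; simp
    simp only [mem_insert, mem_singleton] at h1
    rcases h1 with h1 | h1 | h1
    · exact absurd h1 hz.1.2.1
    · exact absurd h1 hz.1.2.2
    · exact h1
  · intro t ht
    rw [mem_filter] at ht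
    obtain ⟨ht, hat, hbt⟩ := ht
    unfold mis at ht
    rw [mem_filter, mem_powersetCard, hVS] at ht
    obtain ⟨⟨h1, h2⟩, h3, -⟩ := ht
    have h4 : (t \ {a, b}).card = 1 := by
      rw [card_sdiff_of_subset, h2, card_pair hab]
      intro w hw
      rw [mem_insert, mem_singleton] at hw
      rcases hw with rfl | rfl
      · exact hat
      · exact hbt
    obtain ⟨z, hz⟩ := Finset.card_eq_one.1 h4
    have hzt : z ∈ t \ {a, b} := by rw [hz]; exact mem_singleton_self z
    rw [mem_sdiff, mem_insert, mem_singleton, not_or] at hzt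
    have h5 : ({a, b, z} : Finset V) = t := by
      apply Finset.eq_of_subset_of_card_le
      · intro w hw
        simp only [mem_insert, mem_singleton] at hw
        rcases hw with rfl | rfl | rfl
        · exact hat
        · exact hbt
        · exact hzt.1
      · rw [h2, card_eq_three.2 ⟨a, b, z, hab, Ne.symm hzt.2.1, Ne.symm hzt.2.2, rfl⟩]
    refine ⟨z, ?_, h5⟩
    unfold m2
    rw [mem_filter, mem_sdiff, mem_insert, mem_singleton, not_or, h5]
    exact ⟨⟨h1 hzt.1, hzt.2⟩, h3⟩

/-- **LA2**: every missing triple of two blocks contains two cells. -/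
theorem SetUp.sum_m2 (h : SetUp F s j P x y) (he : e ∈ P) (hf : f ∈ P) (hef : e ≠ f) :
    ∑ a ∈ e, ∑ b ∈ f, (m2 F e f a b).card = 2 * (mis F {e, f}).card := by
  classical
  have h1 : ∀ a ∈ e, ∀ b ∈ f, (m2 F e f a b).card =
      ∑ t ∈ mis F {e, f}, (if a ∈ t then 1 else 0) * (if b ∈ t then 1 else 0) := by
    intro a ha b hb
    rw [card_m2 h.mat he hf hef ha hb, Finset.card_filter]
    refine Finset.sum_congr rfl fun t _ => ?_
    by_cases h1 : a ∈ t <;> by_cases h2 : b ∈ t <;> simp [h1, h2]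
  rw [Finset.sum_congr rfl fun a ha => Finset.sum_congr rfl fun b hb => h1 a ha b hb]
  rw [Finset.sum_congr rfl fun a _ => Finset.sum_comm, Finset.sum_comm, mul_comm,
    ← smul_eq_mul, ← Finset.sum_const]
  refine Finset.sum_congr rfl fun t ht => ?_
  rw [← mis_two h.mat he hf hef ht, Finset.card_filter, Finset.card_filter, Finset.sum_mul_sum]

/-- the missing transversal triples -/
def T3 (F P : Finset (Finset V)) : Finset (Finset V) :=
  ((VS P).powersetCard 3).filter (fun t => t ∉ F ∧ (bl P t).card = 3)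

theorem card_T3 (hm : IsMatching P) :
    (T3 F P).card = ∑ S ∈ P.powersetCard 3, (mis F S).card := by
  classical
  have h1 : (T3 F P).card =
      ∑ S ∈ P.powersetCard 3, ((T3 F P).filter (fun t => bl P t = S)).card := by
    refine Finset.card_eq_sum_card_fiberwise (f := bl P) ?_
    intro t ht
    have ht' := Finset.mem_coe.1 ht
    unfold T3 at ht'
    rw [mem_filter] at ht'
    exact Finset.mem_coe.2 (mem_powersetCard.2 ⟨bl_subset P t, ht'.2.2⟩)
  rw [h1]
  refine Finset.sum_congr rfl fun S hS => ?_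
  rw [mem_powersetCard] at hS
  rw [mis_eq hm hS.1]
  congr 1
  ext t
  unfold T3
  rw [mem_filter, mem_filter, mem_filter, mem_tr, mem_powersetCard]
  constructor
  · rintro ⟨⟨⟨a1, a2⟩, a3, -⟩, a4⟩
    exact ⟨⟨a1, a2, a4⟩, a3⟩
  · rintro ⟨⟨a1, a2, a4⟩, a3⟩
    refine ⟨⟨⟨a1, a2⟩, a3, ?_⟩, a4⟩
    rw [a4]
    exact hS.2

/-- a transversal triple meets each of its blocks in one point -/
theorem one_point (hm : IsMatching P) {t : Finset V} (hc : t.card = 3) (hb : (bl P t).card = 3)
    {e : Finset V} (he : e ∈ P) :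
    (e.filter (· ∈ t)).card = if e ∈ bl P t then 1 else 0 := by
  classical
  rw [Finset.filter_mem_eq_inter]
  split_ifs with h
  · apply le_antisymm
    · by_contra hcon
      push Not at hcon
      obtain ⟨a, ha, a', ha', hne⟩ := Finset.one_lt_card.1 hcon
      rw [mem_inter] at ha ha'
      have hsub : bl P t ⊆ bl P (t.erase a) := by
        intro b hb
        have hb' := mem_bl.1 hb
        refine mem_bl.2 ⟨hb'.1, ?_⟩
        by_cases hbe : b = e
        · rw [hbe]
          exact Finset.not_disjoint_iff.2 ⟨a', ha'.1, mem_erase.2 ⟨Ne.symm hne, ha'.2⟩⟩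
        · obtain ⟨z, hz1, hz2⟩ := Finset.not_disjoint_iff.1 hb'.2
          refine Finset.not_disjoint_iff.2 ⟨z, hz1, mem_erase.2 ⟨?_, hz2⟩⟩
          rintro rfl
          exact Finset.disjoint_left.1 (hm b hb'.1 e he hbe) hz1 ha.1
      have h1 := card_le_card hsub
      have h2 := card_bl_le hm (g := t.erase a)
      rw [card_erase_of_mem ha.2, hc] at h2
      omega
    · rw [Nat.one_le_iff_ne_zero, ← Nat.pos_iff_ne_zero, Finset.card_pos,
        ← Finset.not_disjoint_iff_nonempty_inter]
      exact (mem_bl.1 h).2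
  · rw [Finset.card_eq_zero, ← Finset.disjoint_iff_inter_eq_empty]
    by_contra hcon
    exact h (mem_bl.2 ⟨he, hcon⟩)

theorem card_m3 (hm : IsMatching P) (he : e ∈ P) (hf : f ∈ P) (hef : e ≠ f) (ha : a ∈ e)
    (hb : b ∈ f) :
    (m3 F P e f a b).card = ((T3 F P).filter (fun t => a ∈ t ∧ b ∈ t)).card := by
  classical
  have hd := hm e he f hf hef
  have hab : a ≠ b := fun h => Finset.disjoint_left.1 hd ha (by rw [h]; exact hb)
  refine Finset.card_bij (fun z _ => ({a, b, z} : Finset V)) ?_ ?_ ?_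
  · intro z hz
    unfold m3 at hz
    rw [mem_filter] at hz
    obtain ⟨hz1, hz2⟩ := hz
    obtain ⟨g, hg, hzg⟩ := mem_VS.1 hz1
    rw [mem_sdiff, mem_insert, mem_singleton, not_or] at hg
    have hza : a ≠ z := by
      rintro rfl
      exact Finset.disjoint_left.1 (hm g hg.1 e he hg.2.1) hzg ha
    have hzb : b ≠ z := by
      rintro rfl
      exact Finset.disjoint_left.1 (hm g hg.1 f hf hg.2.2) hzg hb
    have hc3 : ({a, b, z} : Finset V).card = 3 := card_eq_three.2 ⟨a, b, z, hab, hza, hzb, rfl⟩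
    rw [mem_filter]
    refine ⟨?_, by simp, by simp⟩
    unfold T3
    rw [mem_filter, mem_powersetCard]
    refine ⟨⟨?_, hc3⟩, hz2, ?_⟩
    · intro w hw
      simp only [mem_insert, mem_singleton] at hw
      rcases hw with rfl | rfl | rfl
      · exact subset_VS he ha
      · exact subset_VS hf hb
      · exact subset_VS hg.1 hzg
    · apply le_antisymm
      · have := card_bl_le hm (g := ({a, b, z} : Finset V))
        omega
      · have hsub : ({e, f, g} : Finset (Finset V)) ⊆ bl P {a, b, z} := by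
          intro c hc
          simp only [mem_insert, mem_singleton] at hc
          rcases hc with rfl | rfl | rfl
          · exact mem_bl.2 ⟨he, Finset.not_disjoint_iff.2 ⟨a, ha, by simp⟩⟩
          · exact mem_bl.2 ⟨hf, Finset.not_disjoint_iff.2 ⟨b, hb, by simp⟩⟩
          · exact mem_bl.2 ⟨hg.1, Finset.not_disjoint_iff.2 ⟨z, hzg, by simp⟩⟩
        have h1 := card_le_card hsub
        rwa [card_eq_three.2 ⟨e, f, g, hef, Ne.symm hg.2.1, Ne.symm hg.2.2, rfl⟩] at h1
  · intro z hz z' hz' h
    unfold m3 at hz hz'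
    rw [mem_filter] at hz hz'
    have h' : ({a, b, z} : Finset V) = {a, b, z'} := h
    have h1 : z ∈ ({a, b, z'} : Finset V) := by rw [← h']; simp
    simp only [mem_insert, mem_singleton] at h1
    obtain ⟨g, hg, hzg⟩ := mem_VS.1 hz.1
    rw [mem_sdiff, mem_insert, mem_singleton, not_or] at hg
    rcases h1 with h1 | h1 | h1
    · rw [h1] at hzg
      exact absurd ha (Finset.disjoint_left.1 (hm g hg.1 e he hg.2.1) hzg)
    · rw [h1] at hzg
      exact absurd hb (Finset.disjoint_left.1 (hm g hg.1 f hf hg.2.2) hzg)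
    · exact h1
  · intro t ht
    rw [mem_filter] at ht
    obtain ⟨ht, hat, hbt⟩ := ht
    unfold T3 at ht
    rw [mem_filter, mem_powersetCard] at ht
    obtain ⟨⟨h1, h2⟩, h3, h6⟩ := ht
    have h4 : (t \ {a, b}).card = 1 := by
      rw [card_sdiff_of_subset, h2, card_pair hab]
      intro w hw
      rw [mem_insert, mem_singleton] at hw
      rcases hw with rfl | rfl
      · exact hat
      · exact hbt
    obtain ⟨z, hz⟩ := Finset.card_eq_one.1 h4
    have hzt : z ∈ t \ {a, b} := by rw [hz]; exact mem_singleton_self z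
    rw [mem_sdiff, mem_insert, mem_singleton, not_or] at hzt
    have h5 : ({a, b, z} : Finset V) = t := by
      apply Finset.eq_of_subset_of_card_le
      · intro w hw
        simp only [mem_insert, mem_singleton] at hw
        rcases hw with rfl | rfl | rfl
        · exact hat
        · exact hbt
        · exact hzt.1
      · rw [h2, card_eq_three.2 ⟨a, b, z, hab, Ne.symm hzt.2.1, Ne.symm hzt.2.2, rfl⟩]
    refine ⟨z, ?_, h5⟩
    unfold m3
    rw [mem_filter, h5]
    refine ⟨?_, h3⟩
    obtain ⟨g, hg, hzg⟩ := mem_VS.1 (h1 hzt.1)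
    have hone : ∀ c ∈ P, ∀ p q : V, p ∈ c → q ∈ c → p ∈ t → q ∈ t → p = q := by
      intro c hc p q hp hq hpt hqt
      have h7 := one_point hm h2 h6 hc
      have h8 : (c.filter (· ∈ t)).card ≤ 1 := by
        rw [h7]
        split_ifs <;> norm_num
      exact Finset.card_le_one.1 h8 p (mem_filter.2 ⟨hp, hpt⟩) q (mem_filter.2 ⟨hq, hqt⟩)
    refine mem_VS.2 ⟨g, ?_, hzg⟩
    rw [mem_sdiff, mem_insert, mem_singleton, not_or]
    refine ⟨hg, ?_, ?_⟩
    · rintro rfl
      exact hzt.2.1 (hone g hg z a hzg ha hzt.1 hat)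
    · rintro rfl
      exact hzt.2.2 (hone g hg z b hzg hb hzt.1 hbt)

/-- **LA2**: every missing transversal triple is counted six times by `m3`. -/
theorem SetUp.sum_m3 (h : SetUp F s j P x y) :
    6 * ∑ S ∈ P.powersetCard 3, (mis F S).card =
      ∑ e ∈ P, ∑ f ∈ P.erase e, ∑ a ∈ e, ∑ b ∈ f, (m3 F P e f a b).card := by
  classical
  rw [← card_T3 h.mat]
  have h1 : ∀ e ∈ P, ∀ f ∈ P.erase e, ∑ a ∈ e, ∑ b ∈ f, (m3 F P e f a b).card =
      ∑ t ∈ T3 F P, (if e ∈ bl P t then 1 else 0) * (if f ∈ bl P t then 1 else 0) := by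
    intro e he f hf
    rw [mem_erase] at hf
    have h2 : ∀ a ∈ e, ∀ b ∈ f, (m3 F P e f a b).card =
        ∑ t ∈ T3 F P, (if a ∈ t then 1 else 0) * (if b ∈ t then 1 else 0) := by
      intro a ha b hb
      rw [card_m3 h.mat he hf.2 (Ne.symm hf.1) ha hb, Finset.card_filter]
      refine Finset.sum_congr rfl fun t _ => ?_
      by_cases h1 : a ∈ t <;> by_cases h2 : b ∈ t <;> simp [h1, h2]
    rw [Finset.sum_congr rfl fun a ha => Finset.sum_congr rfl fun b hb => h2 a ha b hb]
    rw [Finset.sum_congr rfl fun a _ => Finset.sum_comm, Finset.sum_comm]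
    refine Finset.sum_congr rfl fun t ht => ?_
    unfold T3 at ht
    rw [mem_filter, mem_powersetCard] at ht
    rw [← one_point h.mat ht.1.2 ht.2.2 he, ← one_point h.mat ht.1.2 ht.2.2 hf.2,
      Finset.card_filter, Finset.card_filter, Finset.sum_mul_sum]
  rw [Finset.sum_congr rfl fun e he => Finset.sum_congr rfl fun f hf => h1 e he f hf]
  rw [Finset.sum_congr rfl fun e _ => Finset.sum_comm, Finset.sum_comm, mul_comm,
    ← smul_eq_mul, ← Finset.sum_const]
  refine Finset.sum_congr rfl fun t ht => ?_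
  unfold T3 at ht
  rw [mem_filter, mem_powersetCard] at ht
  have h3 : ∀ e ∈ P, ∑ f ∈ P.erase e,
      (if e ∈ bl P t then 1 else 0) * (if f ∈ bl P t then 1 else 0) =
      if e ∈ bl P t then 2 else 0 := by
    intro e he
    split_ifs with h4
    · simp only [one_mul]
      rw [← Finset.card_filter]
      have h5 : (P.erase e).filter (fun f => f ∈ bl P t) = (bl P t).erase e := by
        ext f
        rw [mem_filter, mem_erase, mem_erase]
        constructor
        · rintro ⟨⟨a1, -⟩, a3⟩
          exact ⟨a1, a3⟩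
        · rintro ⟨a1, a3⟩
          exact ⟨⟨a1, bl_subset P t a3⟩, a3⟩
      rw [h5, card_erase_of_mem h4, ht.2.2]
    · simp
  rw [Finset.sum_congr rfl h3, ← Finset.sum_filter, Finset.filter_mem_eq_inter,
    Finset.inter_eq_right.2 (bl_subset P t), Finset.sum_const, ht.2.2]
  rfl

end

end RouteA
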