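import Pool.Agent.Helper65.Res.Own
import Pool.Agent.Helper9.Res.PM

/-!
# Route A: the frame of the final accounting in terms of `tau` and of labels
-/

namespace RouteA

open Finset Res12 Helper9.Res

set_option linter.unusedSectionVars false

variable {V : Type} [Fintype V] [DecidableEq V]

section
variable {F P S : Finset (Finset V)} {s j : ℕ} {x y a b : V} {e f : Finset V}

/-- the pair bracket is the sum of `tau` over the nine cells -/
theorem SetUp.sum_tau (h : SetUp F s j P x y) (he : e ∈ P) (hf : f ∈ P) (hef : e ≠ f) :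
    ∑ a ∈ e, ∑ b ∈ f, tau F P e f a b = 3 * ∑ a ∈ e, ∑ b ∈ f, lam F P a b -
      ∑ a ∈ e, ∑ b ∈ f, ((m3 F P e f a b).card : ℤ) - 2 * (mis F {e, f}).card := by
  have h1 := h.sum_m2 he hf hef
  zify at h1
  unfold tau
  simp only [Finset.sum_sub_distrib, ← Finset.mul_sum]
  rw [h1]

/-- the sum over the nine cells of two blocks, in coordinates -/
theorem sum_nine {M : Type} [AddCommMonoid M] (X : V → V → M) {u v t a b c : V}
    (p : Pm P e f u v t a b c) (h3 : ∀ g ∈ P, g.card = 3) :
    ∑ q ∈ e, ∑ r ∈ f, X q r = X u a + X u b + X u c + (X v a + X v b + X v c) +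
      (X t a + X t b + X t c) := by
  have he : e = {u, v, t} := by
    symm
    apply Finset.eq_of_subset_of_card_le
    · intro z hz
      simp only [mem_insert, mem_singleton] at hz
      rcases hz with rfl | rfl | rfl
      · exact p.hu
      · exact p.hv
      · exact p.ht
    · rw [h3 e p.he, card_eq_three.2 ⟨u, v, t, p.huv, p.hut, p.hvt, rfl⟩]
  have hf : f = {a, b, c} := by
    symm
    apply Finset.eq_of_subset_of_card_le
    · intro z hz
      simp only [mem_insert, mem_singleton] at hz
      rcases hz with rfl | rfl | rfl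
      · exact p.ha
      · exact p.hb
      · exact p.hc
    · rw [h3 f p.hf, card_eq_three.2 ⟨a, b, c, p.hab, p.hac, p.hbc, rfl⟩]
  have h1 : ∀ Y : V → M, ∑ r ∈ f, Y r = Y a + Y b + Y c := by
    intro Y
    rw [hf, Finset.sum_insert (by simp [p.hab, p.hac]), Finset.sum_insert (by simp [p.hbc]),
      Finset.sum_singleton, add_assoc]
  have h2 : ∀ Y : V → M, ∑ r ∈ e, Y r = Y u + Y v + Y t := by
    intro Y
    rw [he, Finset.sum_insert (by simp [p.huv, p.hut]), Finset.sum_insert (by simp [p.hvt]),
      Finset.sum_singleton, add_assoc]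
  rw [h2, h1, h1, h1]

/-- twice the sum over the nine cells is the sum over the six perfect matchings -/
theorem two_sum (X : V → V → ℤ) {u v t a b c : V}
    (p : Pm P e f u v t a b c) (h3 : ∀ g ∈ P, g.card = 3) :
    2 * ∑ q ∈ e, ∑ r ∈ f, X q r =
      (X u a + X v b + X t c) + (X u a + X v c + X t b) + (X u b + X v a + X t c) +
      (X u b + X v c + X t a) + (X u c + X v a + X t b) + (X u c + X v b + X t a) := by
  rw [sum_nine X p h3]
  ring

theorem exists_pm (h3 : ∀ g ∈ P, g.card = 3) (he : e ∈ P) (hf : f ∈ P) (hef : e ≠ f) :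
    ∃ u v t a b c, Pm P e f u v t a b c := by
  obtain ⟨u, v, t, hu, hv, ht, huv, hut, hvt, -⟩ := exists_three (h3 e he)
  obtain ⟨a, b, c, ha, hb, hc, hab, hac, hbc, -⟩ := exists_three (h3 f hf)
  exact ⟨u, v, t, a, b, c, he, hf, hef, hu, hv, ht, ha, hb, hc, huv, hut, hvt, hab, hac, hbc⟩

/-- a bound for every perfect matching bounds the sum over the cells -/
theorem sum_cells_le (X : V → V → ℤ) (B : ℤ) (h3 : ∀ g ∈ P, g.card = 3) (he : e ∈ P)
    (hf : f ∈ P) (hef : e ≠ f)
    (h : ∀ u v t a b c, Pm P e f u v t a b c → X u a + X v b + X t c ≤ B) :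
    ∑ q ∈ e, ∑ r ∈ f, X q r ≤ 3 * B := by
  obtain ⟨u, v, t, a, b, c, p⟩ := exists_pm h3 he hf hef
  have h1 := two_sum X p h3
  have p1 := h u v t a b c p
  have p2 := h u v t a c b p.cols
  have p3 := h u v t b a c ⟨p.he, p.hf, p.hef, p.hu, p.hv, p.ht, p.hb, p.ha, p.hc, p.huv, p.hut,
    p.hvt, p.hab.symm, p.hbc, p.hac⟩
  have p4 := h u v t b c a ⟨p.he, p.hf, p.hef, p.hu, p.hv, p.ht, p.hb, p.hc, p.ha, p.huv, p.hut,
    p.hvt, p.hbc, p.hab.symm, p.hac.symm⟩
  have p5 := h u v t c a b ⟨p.he, p.hf, p.hef, p.hu, p.hv, p.ht, p.hc, p.ha, p.hb, p.huv, p.hut,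
    p.hvt, p.hac.symm, p.hbc.symm, p.hab⟩
  have p6 := h u v t c b a ⟨p.he, p.hf, p.hef, p.hu, p.hv, p.ht, p.hc, p.hb, p.ha, p.huv, p.hut,
    p.hvt, p.hbc.symm, p.hac.symm, p.hab.symm⟩
  linarith

/-- the edges through one point of `VS P`: `G'`, `N'_x`, `N'_y` and `p x y` -/
theorem SetUp.dg_point (h : SetUp F s j P x y) {p : V} (hp : p ∈ VS P) :
    Helper28.Res.dg F (VS P) {p} = (Gp F P x y p).card + (lb F P x y x p).card +
      (lb F P x y y p).card + (if p ∈ N F x y then 1 else 0) := by
  classical
  have hpx : p ≠ x := fun h' => h.avx (by rw [← h']; exact hp)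
  have hpy : p ≠ y := fun h' => h.avy (by rw [← h']; exact hp)
  have hxy := h.ne
  unfold Helper28.Res.dg
  set A := F.filter (fun e => e ∩ VS P = {p}) with hA
  have h1 := Finset.card_filter_add_card_filter_not (s := A) (fun e => x ∈ e)
  have h2 := Finset.card_filter_add_card_filter_not (s := A.filter (fun e => x ∈ e))
    (fun e => y ∈ e)
  have h3 := Finset.card_filter_add_card_filter_not (s := A.filter (fun e => ¬ x ∈ e))
    (fun e => y ∈ e)
  -- neither x nor y
  have g1 : ((A.filter (fun e => ¬ x ∈ e)).filter (fun e => ¬ y ∈ e)).card =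
      (Gp F P x y p).card := by
    congr 1
    ext e
    unfold Gp
    rw [mem_filter, mem_filter, hA, mem_filter, mem_filter]
    tauto
  -- the general edge with one of x, y
  have gen : ∀ x y : V, x ∉ VS P → y ∉ VS P → x ≠ y →
      ((A.filter (fun e => x ∈ e)).filter (fun e => ¬ y ∈ e)).card =
      (lb F P x y x p).card := by
    intro x y hx hy hxy
    have hpx : p ≠ x := fun h' => hx (by rw [← h']; exact hp)
    symm
    refine Finset.card_bij (fun w _ => ({x, p, w} : Finset V)) ?_ ?_ ?_
    · intro w hw
      unfold lb at hw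
      rw [mem_sdiff, mem_N, mem_union, mem_insert, mem_singleton, not_or, not_or] at hw
      obtain ⟨hw1, hw2, hw3, hw4⟩ := hw
      rw [mem_filter, mem_filter, hA, mem_filter]
      refine ⟨⟨⟨hw1, ?_⟩, by simp⟩, ?_⟩
      · ext z
        simp only [mem_inter, mem_insert, mem_singleton]
        constructor
        · rintro ⟨hz1 | hz1 | hz1, hz2⟩
          · rw [hz1] at hz2
            exact absurd hz2 hx
          · exact hz1
          · rw [hz1] at hz2
            exact absurd hz2 hw2
        · rintro rfl
          exact ⟨Or.inr (Or.inl rfl), hp⟩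
      · simp only [mem_insert, mem_singleton, not_or]
        refine ⟨Ne.symm hxy, ?_, fun h' => hw4 h'.symm⟩
        rintro rfl
        exact hy hp
    · intro w hw w' hw' heq
      unfold lb at hw hw'
      rw [mem_sdiff, mem_N, mem_union, mem_insert, mem_singleton, not_or, not_or] at hw hw'
      have h' : ({x, p, w} : Finset V) = {x, p, w'} := heq
      have h4 : w ∈ ({x, p, w'} : Finset V) := by rw [← h']; simp
      simp only [mem_insert, mem_singleton] at h4
      rcases h4 with h4 | h4 | h4
      · exact absurd h4 hw.2.2.1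
      · rw [h4] at hw
        exact absurd hp hw.2.1
      · exact h4
    · intro e he
      rw [mem_filter, mem_filter, hA, mem_filter] at he
      obtain ⟨⟨⟨he1, he2⟩, he3⟩, he4⟩ := he
      have hpe : p ∈ e := by
        have : p ∈ e ∩ VS P := by rw [he2]; simp
        exact (mem_inter.1 this).1
      have h4 : (e \ {x, p}).card = 1 := by
        rw [card_sdiff_of_subset, h.three e he1, card_pair (Ne.symm hpx)]
        intro z hz
        rw [mem_insert, mem_singleton] at hz
        rcases hz with rfl | rfl
        · exact he3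
        · exact hpe
      obtain ⟨w, hw⟩ := Finset.card_eq_one.1 h4
      have hwe : w ∈ e \ {x, p} := by rw [hw]; exact mem_singleton_self w
      rw [mem_sdiff, mem_insert, mem_singleton, not_or] at hwe
      have h5 : ({x, p, w} : Finset V) = e := by
        apply Finset.eq_of_subset_of_card_le
        · intro z hz
          simp only [mem_insert, mem_singleton] at hz
          rcases hz with rfl | rfl | rfl
          · exact he3
          · exact hpe
          · exact hwe.1
        · rw [h.three e he1, card_eq_three.2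
            ⟨x, p, w, Ne.symm hpx, Ne.symm hwe.2.1, Ne.symm hwe.2.2, rfl⟩]
      refine ⟨w, ?_, h5⟩
      unfold lb
      rw [mem_sdiff, mem_N, mem_union, mem_insert, mem_singleton, not_or, not_or, h5]
      refine ⟨he1, ?_, hwe.2.1, ?_⟩
      · intro hwV
        have : w ∈ e ∩ VS P := mem_inter.2 ⟨hwe.1, hwV⟩
        rw [he2, mem_singleton] at this
        exact hwe.2.2 this
      · rintro rfl
        exact he4 hwe.1
  have g2 := gen x y h.avx h.avy h.ne
  have g3 : ((A.filter (fun e => ¬ x ∈ e)).filter (fun e => y ∈ e)).card =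
      (lb F P x y y p).card := by
    have h4 := gen y x h.avy h.avx h.ne.symm
    have h5 : lb F P y x y p = lb F P x y y p := by
      unfold lb
      rw [Finset.pair_comm]
    rw [h5] at h4
    rw [← h4]
    congr 1
    ext e
    simp only [mem_filter]
    tauto
  have g4 : ((A.filter (fun e => x ∈ e)).filter (fun e => y ∈ e)).card =
      if p ∈ N F x y then 1 else 0 := by
    have key : ∀ e ∈ (A.filter (fun e => x ∈ e)).filter (fun e => y ∈ e), e = {x, y, p} := by
      intro e he
      rw [mem_filter, mem_filter, hA, mem_filter] at he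
      obtain ⟨⟨⟨he1, he2⟩, he3⟩, he4⟩ := he
      have hpe : p ∈ e := by
        have : p ∈ e ∩ VS P := by rw [he2]; simp
        exact (mem_inter.1 this).1
      symm
      apply Finset.eq_of_subset_of_card_le
      · intro z hz
        simp only [mem_insert, mem_singleton] at hz
        rcases hz with rfl | rfl | rfl
        · exact he3
        · exact he4
        · exact hpe
      · rw [h.three e he1, card_eq_three.2 ⟨x, y, p, hxy, Ne.symm hpx, Ne.symm hpy, rfl⟩]
    split_ifs with hN
    · rw [mem_N] at hN
      rw [Finset.card_eq_one]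
      refine ⟨{x, y, p}, ?_⟩
      apply Finset.eq_singleton_iff_unique_mem.2
      refine ⟨?_, key⟩
      rw [mem_filter, mem_filter, hA, mem_filter]
      refine ⟨⟨⟨hN, ?_⟩, by simp⟩, by simp⟩
      ext z
      simp only [mem_inter, mem_insert, mem_singleton]
      constructor
      · rintro ⟨hz1 | hz1 | hz1, hz2⟩
        · rw [hz1] at hz2
          exact absurd hz2 h.avx
        · rw [hz1] at hz2
          exact absurd hz2 h.avy
        · exact hz1
      · rintro rfl
        exact ⟨Or.inr (Or.inr rfl), hp⟩
    · rw [Finset.card_eq_zero, Finset.eq_empty_iff_forall_notMem]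
      intro e he
      have h4 := key e he
      rw [mem_filter, mem_filter, hA, mem_filter, h4] at he
      exact hN (mem_N.2 he.1.1.1)
  omega

/-- the points of a block -/
theorem SetUp.sum_points (h : SetUp F s j P x y) (he : e ∈ P) :
    ∑ p ∈ e.powersetCard 1, (Helper28.Res.dg F (VS P) p : ℤ) - 3 =
      ∑ v ∈ e, (((Gp F P x y v).card : ℤ) + (lb F P x y x v).card + (lb F P x y y v).card) -
        ty F x y e := by
  classical
  rw [Finset.powersetCard_one, Finset.sum_map]
  have h1 : ∀ v ∈ e, (Helper28.Res.dg F (VS P)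
      ((⟨singleton, Finset.singleton_injective⟩ : V ↪ Finset V) v) : ℤ) =
      (((Gp F P x y v).card : ℤ) + (lb F P x y x v).card + (lb F P x y y v).card) +
        (if v ∈ N F x y then 1 else 0) := by
    intro v hv
    have h2 := h.dg_point (subset_VS he hv)
    change (Helper28.Res.dg F (VS P) {v} : ℤ) = _
    rw [h2]
    push_cast
    split_ifs <;> simp
  rw [Finset.sum_congr rfl h1, Finset.sum_add_distrib]
  have h2 : ∑ v ∈ e, (if v ∈ N F x y then (1 : ℤ) else 0) = 3 - ty F x y e := by
    have h3 := Finset.card_sdiff_add_card_inter e (N F x y)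
    rw [h.threeP e he] at h3
    unfold ty
    rw [← Finset.sum_filter, Finset.sum_const, Finset.filter_mem_eq_inter]
    zify at h3
    simp
    linarith
  rw [h2]
  ring

/-- **The frame of the final accounting**, multiplied by six: cells through `tau`, own pairs with
two thirds of `λ`, and the points with `G'`, `N'_x`, `N'_y`. -/
theorem SetUp.frame_tau (h : SetUp F s j P x y) :
    6 * ((F.card : ℤ) - ((3 * s + 2).choose 3 : ℤ)) ≤
      ∑ e ∈ P, ∑ f ∈ P.erase e, ∑ a ∈ e, ∑ b ∈ f, tau F P e f a b +
      ∑ e ∈ P, (4 * ∑ p ∈ e.powersetCard 2, ((Helper28.Res.dg F (VS P) p : ℤ) - 2) - 6 * j -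
        6 * ty F x y e + 6 * ∑ v ∈ e, (((Gp F P x y v).card : ℤ) + (lb F P x y x v).card +
          (lb F P x y y v).card)) := by
  classical
  refine h.frame.trans ?_
  apply add_le_add
  · apply le_of_eq
    refine Finset.sum_congr rfl fun e he => Finset.sum_congr rfl fun f hf => ?_
    rw [mem_erase] at hf
    rw [h.sum_tau he hf.2 (Ne.symm hf.1)]
  · apply le_of_eq
    refine Finset.sum_congr rfl fun e he => ?_
    have h1 := h.sum_points he
    linarith

end

end RouteA
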