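import Pool.Agent.Helper83.Res.TheoremX

/-!
# Project RES (MP_d365ae_co), leaf LA2: the exact identity

For a matching `N` of the 3-graph `F` which meets every edge, `U = VS N`: the number of edges with a
given set of blocks, and the total number of edges, in terms of the outside degrees `dW` of the
pairs of `U`, the outside degrees `gW` of the points of `U` and the missing triples of `U`.
-/

namespace Res12

open Finset Res83

set_option linter.unusedSectionVars false

variable {V : Type} [Fintype V] [DecidableEq V]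

/-- number of edges with trace `p` on `U` -/
def ex (F : Finset (Finset V)) (U p : Finset V) : ℕ := (F.filter (fun g => g ∩ U = p)).card

/-- number of points outside `U` which complete the pair `p` to an edge -/
def dW (F : Finset (Finset V)) (U p : Finset V) : ℕ :=
  ((univ \ U).filter (fun w => insert w p ∈ F)).card

/-- number of pairs outside `U` which complete the point `v` to an edge -/
def gW (F : Finset (Finset V)) (U : Finset V) (v : V) : ℕ :=
  (((univ \ U).powersetCard 2).filter (fun q => insert v q ∈ F)).card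

/-- the `j`-subsets of `VS N` with set of blocks `S` -/
def tr (j : ℕ) (N S : Finset (Finset V)) : Finset (Finset V) :=
  ((VS N).powersetCard j).filter (fun p => bl N p = S)

/-- number of missing triples of `VS N` with set of blocks `S` -/
def miss (F N S : Finset (Finset V)) : ℕ := ((tr 3 N S).filter (fun t => t ∉ F)).card

/-- number of missing triples of `VS N` -/
def mu (F N : Finset (Finset V)) : ℕ := (((VS N).powersetCard 3).filter (fun t => t ∉ F)).card

section basic

variable {F N S : Finset (Finset V)} {U p e f : Finset V} {j : ℕ} {v : V}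

theorem mem_tr : p ∈ tr j N S ↔ p ⊆ VS N ∧ p.card = j ∧ bl N p = S := by
  unfold tr
  rw [mem_filter, mem_powersetCard, and_assoc]

theorem bl_inter (N : Finset (Finset V)) (g : Finset V) : bl N (g ∩ VS N) = bl N g := by
  ext b
  rw [mem_bl, mem_bl]
  refine and_congr_right fun hb => not_congr ?_
  constructor
  · intro h
    rw [Finset.disjoint_left] at h ⊢
    intro x hx hxg
    exact h hx (mem_inter.2 ⟨hxg, subset_VS hb hx⟩)
  · intro h
    exact h.mono_right inter_subset_left

theorem ex_three (h3 : ∀ g ∈ F, g.card = 3) (hp : p ⊆ U) (hc : p.card = 3) :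
    ex F U p = if p ∈ F then 1 else 0 := by
  unfold ex
  have key : ∀ g ∈ F, (g ∩ U = p ↔ g = p) := by
    intro g hg
    constructor
    · intro h
      symm
      apply Finset.eq_of_subset_of_card_le
      · rw [← h]
        exact inter_subset_left
      · rw [h3 g hg, hc]
    · rintro rfl
      exact inter_eq_left.2 hp
  rw [Finset.filter_congr key, Finset.filter_eq']
  split_ifs <;> simp

theorem ex_two (h3 : ∀ g ∈ F, g.card = 3) (hp : p ⊆ U) (hc : p.card = 2) :
    ex F U p = dW F U p := by
  unfold ex dW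
  symm
  refine Finset.card_bij (fun w _ => insert w p) ?_ ?_ ?_
  · intro w hw
    rw [mem_filter, mem_sdiff] at hw
    rw [mem_filter]
    refine ⟨hw.2, ?_⟩
    rw [Finset.insert_inter_of_notMem hw.1.2, inter_eq_left.2 hp]
  · intro w hw w' hw' h
    rw [mem_filter, mem_sdiff] at hw hw'
    have h1 : w ∈ insert w' p := by
      rw [← h]
      exact mem_insert_self _ _
    rw [mem_insert] at h1
    rcases h1 with h1 | h1
    · exact h1
    · exact absurd (hp h1) hw.1.2
  · intro g hg
    rw [mem_filter] at hg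
    have h1 : (g \ U).card = 1 := by
      have := Finset.card_sdiff_add_card_inter g U
      rw [hg.2, h3 g hg.1, hc] at this
      omega
    obtain ⟨w, hw⟩ := Finset.card_eq_one.1 h1
    have hwg : w ∈ g \ U := by rw [hw]; exact mem_singleton_self _
    rw [mem_sdiff] at hwg
    have h2 : insert w p = g := by
      rw [← hg.2, Finset.insert_eq, ← hw]
      exact Finset.sdiff_union_inter g U
    refine ⟨w, ?_, h2⟩
    rw [mem_filter, mem_sdiff, h2]
    exact ⟨⟨mem_univ _, hwg.2⟩, hg.1⟩

theorem ex_one (h3 : ∀ g ∈ F, g.card = 3) (hv : v ∈ U) : ex F U {v} = gW F U v := by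
  unfold ex gW
  symm
  have hvq : ∀ q ∈ (univ \ U).powersetCard 2, v ∉ q := by
    intro q hq hvq
    rw [mem_powersetCard] at hq
    exact (mem_sdiff.1 (hq.1 hvq)).2 hv
  refine Finset.card_bij (fun q _ => insert v q) ?_ ?_ ?_
  · intro q hq
    rw [mem_filter] at hq
    rw [mem_filter]
    refine ⟨hq.2, ?_⟩
    have h1 := (mem_powersetCard.1 hq.1).1
    rw [Finset.insert_inter_of_mem hv]
    have h2 : q ∩ U = ∅ := by
      rw [← Finset.disjoint_iff_inter_eq_empty, Finset.disjoint_left]
      intro x hx hxU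
      exact (mem_sdiff.1 (h1 hx)).2 hxU
    rw [h2]
    rfl
  · intro q hq q' hq' h
    rw [mem_filter] at hq hq'
    have h' : insert v q = insert v q' := h
    rw [← Finset.erase_insert (hvq q hq.1), h', Finset.erase_insert (hvq q' hq'.1)]
  · intro g hg
    rw [mem_filter] at hg
    have h1 : (g \ U).card = 2 := by
      have := Finset.card_sdiff_add_card_inter g U
      rw [hg.2, h3 g hg.1, card_singleton] at this
      omega
    have h2 : insert v (g \ U) = g := by
      rw [Finset.insert_eq, ← hg.2, Finset.union_comm]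
      exact Finset.sdiff_union_inter g U
    refine ⟨g \ U, ?_, h2⟩
    rw [mem_filter, h2, mem_powersetCard]
    exact ⟨⟨sdiff_subset_sdiff (subset_univ _) subset_rfl, h1⟩, hg.1⟩

/-- The edges with set of blocks `S`, by trace on `VS N`. -/
theorem A_levels (h3 : ∀ g ∈ F, g.card = 3) (hcov : ∀ g ∈ F, (bl N g).Nonempty) :
    A F N S = ∑ p ∈ tr 1 N S, ex F (VS N) p + ∑ p ∈ tr 2 N S, dW F (VS N) p +
      ((tr 3 N S).filter (fun t => t ∈ F)).card := by
  classical
  set U := VS N with hU
  have hdec : A F N S = ∑ j ∈ ({1, 2, 3} : Finset ℕ),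
      ((F.filter (fun g => bl N g = S)).filter (fun g => (g ∩ U).card = j)).card := by
    unfold A
    refine Finset.card_eq_sum_card_fiberwise (f := fun g => (g ∩ U).card) ?_
    intro g hg
    have hg' := Finset.mem_coe.1 hg
    rw [mem_filter] at hg'
    have h1 : (g ∩ U).card ≤ 3 := by
      rw [← h3 g hg'.1]
      exact card_le_card inter_subset_left
    have h2 : (g ∩ U).card ≠ 0 := by
      intro h0
      rw [Finset.card_eq_zero] at h0
      obtain ⟨b, hb⟩ := hcov g hg'.1
      rw [mem_bl] at hb
      apply hb.2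
      rw [Finset.disjoint_left]
      intro x hx hxg
      have : x ∈ g ∩ U := mem_inter.2 ⟨hxg, subset_VS hb.1 hx⟩
      rw [h0] at this
      simp at this
    simp only [Finset.coe_insert, Finset.coe_singleton, Set.mem_insert_iff, Set.mem_singleton_iff]
    omega
  have hj : ∀ j, ((F.filter (fun g => bl N g = S)).filter (fun g => (g ∩ U).card = j)).card =
      ∑ p ∈ tr j N S, ex F U p := by
    intro j
    have h1 : ((F.filter (fun g => bl N g = S)).filter (fun g => (g ∩ U).card = j)).card =
        ∑ p ∈ tr j N S, (((F.filter (fun g => bl N g = S)).filter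
          (fun g => (g ∩ U).card = j)).filter (fun g => g ∩ U = p)).card := by
      refine Finset.card_eq_sum_card_fiberwise (f := fun g => g ∩ U) ?_
      intro g hg
      have hg' := Finset.mem_coe.1 hg
      rw [mem_filter, mem_filter] at hg'
      refine Finset.mem_coe.2 (mem_tr.2 ⟨inter_subset_right, hg'.2, ?_⟩)
      rw [hU, bl_inter]
      exact hg'.1.2
    rw [h1]
    refine Finset.sum_congr rfl fun p hp => ?_
    rw [mem_tr] at hp
    unfold ex
    congr 1
    ext g
    rw [mem_filter, mem_filter, mem_filter, mem_filter]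
    constructor
    · rintro ⟨⟨⟨a, _⟩, _⟩, b⟩
      exact ⟨a, b⟩
    · rintro ⟨a, b⟩
      refine ⟨⟨⟨a, ?_⟩, ?_⟩, b⟩
      · rw [← bl_inter, ← hU, b]
        exact hp.2.2
      · rw [b]
        exact hp.2.1
  rw [hdec, Finset.sum_insert (by decide), Finset.sum_insert (by decide), Finset.sum_singleton,
    hj, hj, hj, add_assoc]
  congr 1
  congr 1
  · refine Finset.sum_congr rfl fun p hp => ?_
    rw [mem_tr] at hp
    exact ex_two h3 hp.1 hp.2.1
  · rw [Finset.card_filter]
    refine Finset.sum_congr rfl fun p hp => ?_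
    rw [mem_tr] at hp
    exact ex_three h3 hp.1 hp.2.1

theorem present_add_miss (F N S : Finset (Finset V)) :
    ((tr 3 N S).filter (fun t => t ∈ F)).card + miss F N S = (tr 3 N S).card :=
  Finset.card_filter_add_card_filter_not _

theorem bl_sub (hm : IsMatching N) (hS : S ⊆ N) (hp : p ⊆ VS S) : bl N p ⊆ S := by
  intro b hb
  rw [mem_bl] at hb
  obtain ⟨x, hxb, hxp⟩ := Finset.not_disjoint_iff.1 hb.2
  obtain ⟨c, hc, hxc⟩ := mem_VS.1 (hp hxp)
  by_cases h : b = c
  · rw [h]
    exact hc
  · exact absurd hxc (Finset.disjoint_left.1 (hm b hb.1 c (hS hc) h) hxb)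

theorem sub_bl (hp : p ⊆ VS N) : p ⊆ VS (bl N p) := by
  intro x hx
  obtain ⟨b, hb, hxb⟩ := mem_VS.1 (hp hx)
  exact mem_VS.2 ⟨b, mem_bl.2 ⟨hb, Finset.not_disjoint_iff.2 ⟨x, hxb, hx⟩⟩, hxb⟩

theorem tr_empty (hj : 0 < j) : tr j N ∅ = ∅ := by
  rw [Finset.eq_empty_iff_forall_notMem]
  intro p hp
  rw [mem_tr] at hp
  have h1 := sub_bl hp.1
  rw [hp.2.2, VS_empty, Finset.subset_empty] at h1
  rw [h1, card_empty] at hp
  omega

theorem sum_tr (hm : IsMatching N) (hS : S ⊆ N) (j : ℕ) :
    ((VS S).powersetCard j).card = ∑ S' ∈ S.powerset, (tr j N S').card := by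
  classical
  have h1 : ((VS S).powersetCard j).card =
      ∑ S' ∈ S.powerset, (((VS S).powersetCard j).filter (fun p => bl N p = S')).card := by
    refine Finset.card_eq_sum_card_fiberwise (f := bl N) ?_
    intro p hp
    have hp' := Finset.mem_coe.1 hp
    rw [mem_powersetCard] at hp'
    exact Finset.mem_coe.2 (mem_powerset.2 (bl_sub hm hS hp'.1))
  rw [h1]
  refine Finset.sum_congr rfl fun S' hS' => ?_
  rw [mem_powerset] at hS'
  congr 1
  ext p
  rw [mem_filter, mem_powersetCard, mem_tr]
  constructor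
  · rintro ⟨⟨a, b⟩, c⟩
    exact ⟨a.trans (VS_mono hS), b, c⟩
  · rintro ⟨a, b, c⟩
    refine ⟨⟨?_, b⟩, c⟩
    have := sub_bl a
    rw [c] at this
    exact this.trans (VS_mono hS')

theorem card_tr_one (hm : IsMatching N) (hN : ∀ e ∈ N, e.card = 3) (he : e ∈ N) (hj : 0 < j) :
    (tr j N {e}).card = Nat.choose 3 j := by
  have h1 := sum_tr hm (S := {e}) (by simpa using he) j
  rw [card_powersetCard, card_VS (hm.mono (by simpa using he)) (by simpa using hN e he),
    card_singleton, mul_one] at h1
  rw [h1]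
  have h2 : ({e} : Finset (Finset V)).powerset = {∅, {e}} := by
    ext x
    simp
  have h3 : (∅ : Finset (Finset V)) ≠ {e} := (Finset.singleton_ne_empty e).symm
  rw [h2, Finset.sum_pair h3, tr_empty hj]
  simp

theorem tr_one_sub (hp : p ∈ tr j N {e}) : p ⊆ e := by
  rw [mem_tr] at hp
  have := sub_bl hp.1
  rw [hp.2.2] at this
  intro x hx
  obtain ⟨b, hb, hxb⟩ := mem_VS.1 (this hx)
  rw [mem_singleton] at hb
  rwa [hb] at hxb

theorem tr_one_eq (hm : IsMatching N) (he : e ∈ N) (hj : 0 < j) :
    tr j N {e} = e.powersetCard j := by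
  ext p
  rw [mem_powersetCard]
  constructor
  · intro hp
    exact ⟨tr_one_sub hp, (mem_tr.1 hp).2.1⟩
  · rintro ⟨h1, h2⟩
    refine mem_tr.2 ⟨h1.trans (subset_VS he), h2, ?_⟩
    have h3 : bl N p ⊆ {e} := bl_sub hm (S := {e}) (by simpa using he) (by
      rw [show VS ({e} : Finset (Finset V)) = e by simp [VS]]
      exact h1)
    rw [Finset.subset_singleton_iff] at h3
    rcases h3 with h3 | h3
    · exfalso
      have h4 := sub_bl (h1.trans (subset_VS he))
      rw [h3, VS_empty, Finset.subset_empty] at h4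
      rw [h4, card_empty] at h2
      omega
    · exact h3

theorem card_tr_two (hm : IsMatching N) (hN : ∀ e ∈ N, e.card = 3) (he : e ∈ N) (hf : f ∈ N)
    (hne : e ≠ f) (hj : 0 < j) :
    (tr j N {e, f}).card + 2 * Nat.choose 3 j = Nat.choose 6 j := by
  classical
  have hsub : ({e, f} : Finset (Finset V)) ⊆ N := by
    intro x hx
    rw [mem_insert, mem_singleton] at hx
    rcases hx with rfl | rfl
    · exact he
    · exact hf
  have h1 := sum_tr hm hsub j
  rw [card_powersetCard, card_VS (hm.mono hsub) (fun x hx => hN x (hsub hx)),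
    card_pair hne] at h1
  rw [Finset.sum_powerset_insert (by simpa using hne),
    show ({f} : Finset (Finset V)).powerset = {∅, {f}} by ext x; simp,
    Finset.sum_pair (Finset.singleton_ne_empty f).symm,
    Finset.sum_pair (Finset.singleton_ne_empty f).symm, tr_empty hj, card_tr_one hm hN hf hj,
    show insert e (∅ : Finset (Finset V)) = {e} from rfl, card_tr_one hm hN he hj,
    show 3 * 2 = 6 from rfl] at h1
  simp only [card_empty] at h1
  omega

theorem card_tr_three (hm : IsMatching N) (hN : ∀ e ∈ N, e.card = 3) (hS : S ⊆ N)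
    (hc : S.card = 3) (hj : 0 < j) :
    (tr j N S).card + 3 * Nat.choose 6 j = Nat.choose 9 j + 3 * Nat.choose 3 j := by
  classical
  obtain ⟨a, b, c, hab, hac, hbc, rfl⟩ := Finset.card_eq_three.1 hc
  have haN : a ∈ N := hS (by simp)
  have hbN : b ∈ N := hS (by simp)
  have hcN : c ∈ N := hS (by simp)
  have h1 := sum_tr hm hS j
  rw [card_powersetCard, card_VS (hm.mono hS) (fun x hx => hN x (hS hx)), hc] at h1
  have hp : ({c} : Finset (Finset V)).powerset = {∅, {c}} := by
    ext x
    simp
  have hn : (∅ : Finset (Finset V)) ≠ {c} := (Finset.singleton_ne_empty c).symm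
  rw [Finset.sum_powerset_insert (by simp [hab, hac]), Finset.sum_powerset_insert
    (by simpa using hbc), Finset.sum_powerset_insert (by simpa using hbc), hp,
    Finset.sum_pair hn, Finset.sum_pair hn, Finset.sum_pair hn, Finset.sum_pair hn,
    tr_empty hj, card_tr_one hm hN hcN hj] at h1
  have e1 : insert b (∅ : Finset (Finset V)) = {b} := rfl
  have e2 : insert a (∅ : Finset (Finset V)) = {a} := rfl
  have e3 : insert a ({b} : Finset (Finset V)) = {a, b} := rfl
  have e4 : insert a ({c} : Finset (Finset V)) = {a, c} := rfl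
  have e5 : insert b ({c} : Finset (Finset V)) = {b, c} := rfl
  rw [e1, e2, e3, e4, e5, card_tr_one hm hN haN hj, card_tr_one hm hN hbN hj,
    show 3 * 3 = 9 from rfl] at h1
  have h2 := card_tr_two hm hN haN hbN hab hj
  have h3 := card_tr_two hm hN haN hcN hac hj
  have h4 := card_tr_two hm hN hbN hcN hbc hj
  simp only [card_empty] at h1
  omega

theorem tr_lt (hm : IsMatching N) (h : j < S.card) : tr j N S = ∅ := by
  rw [Finset.eq_empty_iff_forall_notMem]
  intro p hp
  rw [mem_tr] at hp
  have := card_bl_le hm (g := p)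
  rw [hp.2.2, hp.2.1] at this
  omega

/-- LA2 (a): the edges which meet only the block `e`. -/
theorem A_one (h3 : ∀ g ∈ F, g.card = 3) (hN : N ⊆ F) (hm : IsMatching N)
    (hcov : ∀ g ∈ F, (bl N g).Nonempty) (he : e ∈ N) :
    A F N {e} = 1 + ∑ p ∈ e.powersetCard 2, dW F (VS N) p + ∑ v ∈ e, gW F (VS N) v := by
  classical
  rw [A_levels h3 hcov, tr_one_eq hm he (by norm_num), tr_one_eq hm he (by norm_num),
    tr_one_eq hm he (by norm_num)]
  have h1 : ∑ p ∈ e.powersetCard 1, ex F (VS N) p = ∑ v ∈ e, gW F (VS N) v := by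
    rw [Finset.powersetCard_one, Finset.sum_map]
    exact Finset.sum_congr rfl fun v hv => ex_one h3 (subset_VS he hv)
  have h2 : e.powersetCard 3 = {e} := by
    have := Finset.powersetCard_self e
    rwa [h3 e (hN he)] at this
  have h4 : (({e} : Finset (Finset V)).filter (fun t => t ∈ F)) = {e} := by
    rw [Finset.filter_singleton, if_pos (hN he)]
  rw [h1, h2, h4, card_singleton]
  ring

/-- the sum over the cells of a pair of blocks -/
theorem sum_cells (hm : IsMatching N) (he : e ∈ N) (hf : f ∈ N) (hne : e ≠ f)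
    (φ : Finset V → ℕ) : ∑ p ∈ tr 2 N {e, f}, φ p = ∑ u ∈ e, ∑ a ∈ f, φ {u, a} := by
  classical
  have hd := hm e he f hf hne
  rw [← Finset.sum_product']
  symm
  refine Finset.sum_bij (fun x _ => ({x.1, x.2} : Finset V)) ?_ ?_ ?_ ?_
  · rintro ⟨u, a⟩ h
    rw [mem_product] at h
    have hua : u ≠ a := fun h' => Finset.disjoint_left.1 hd h.1 (by rw [h']; exact h.2)
    refine mem_tr.2 ⟨?_, card_pair hua, ?_⟩
    · intro x hx
      rw [mem_insert, mem_singleton] at hx
      rcases hx with rfl | rfl
      · exact subset_VS he h.1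
      · exact subset_VS hf h.2
    · apply Finset.Subset.antisymm
      · refine bl_sub hm ?_ ?_
        · intro x hx
          rw [mem_insert, mem_singleton] at hx
          rcases hx with rfl | rfl
          · exact he
          · exact hf
        · intro x hx
          rw [mem_insert, mem_singleton] at hx
          rcases hx with rfl | rfl
          · exact mem_VS.2 ⟨e, by simp, h.1⟩
          · exact mem_VS.2 ⟨f, by simp, h.2⟩
      · intro x hx
        rw [mem_insert, mem_singleton] at hx
        rcases hx with rfl | rfl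
        · exact mem_bl.2 ⟨he, Finset.not_disjoint_iff.2 ⟨u, h.1, by simp⟩⟩
        · exact mem_bl.2 ⟨hf, Finset.not_disjoint_iff.2 ⟨a, h.2, by simp⟩⟩
  · rintro ⟨u, a⟩ h ⟨u', a'⟩ h' heq
    rw [mem_product] at h h'
    have heq' : ({u, a} : Finset V) = {u', a'} := heq
    have h1 : u ∈ ({u', a'} : Finset V) := by rw [← heq']; simp
    have h2 : a ∈ ({u', a'} : Finset V) := by rw [← heq']; simp
    rw [mem_insert, mem_singleton] at h1 h2
    have e1 : u = u' := by
      rcases h1 with h1 | h1
      · exact h1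
      · exact absurd h'.2 (fun h'' => Finset.disjoint_left.1 hd h.1 (by rw [h1]; exact h''))
    have e2 : a = a' := by
      rcases h2 with h2 | h2
      · exact absurd h.2 (fun h'' => Finset.disjoint_left.1 hd h'.1 (by rw [← h2]; exact h''))
      · exact h2
    rw [e1, e2]
  · intro p hp
    rw [mem_tr] at hp
    have h1 : e ∈ bl N p := by rw [hp.2.2]; simp
    have h2 : f ∈ bl N p := by rw [hp.2.2]; simp
    obtain ⟨u, hue, hup⟩ := Finset.not_disjoint_iff.1 (mem_bl.1 h1).2
    obtain ⟨a, haf, hap⟩ := Finset.not_disjoint_iff.1 (mem_bl.1 h2).2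
    have hua : u ≠ a := fun h' => Finset.disjoint_left.1 hd hue (by rw [h']; exact haf)
    refine ⟨(u, a), mem_product.2 ⟨hue, haf⟩, ?_⟩
    apply Finset.eq_of_subset_of_card_le
    · intro x hx
      rw [mem_insert, mem_singleton] at hx
      rcases hx with rfl | rfl
      · exact hup
      · exact hap
    · rw [hp.2.1, card_pair hua]
  · intro x _
    rfl

/-- LA2 (b): the edges which meet exactly the blocks `e` and `f`. -/
theorem A_two (h3 : ∀ g ∈ F, g.card = 3) (hN : N ⊆ F) (hm : IsMatching N)
    (hcov : ∀ g ∈ F, (bl N g).Nonempty) (he : e ∈ N) (hf : f ∈ N) (hne : e ≠ f) :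
    A F N {e, f} + miss F N {e, f} = 18 + ∑ u ∈ e, ∑ a ∈ f, dW F (VS N) {u, a} := by
  classical
  rw [A_levels h3 hcov, tr_lt (j := 1) hm (by rw [card_pair hne]; norm_num), Finset.sum_empty,
    sum_cells hm he hf hne]
  have h1 := present_add_miss F N {e, f}
  have h2 := card_tr_two hm (fun e he => h3 e (hN he)) he hf hne (j := 3) (by norm_num)
  have h4 : Nat.choose 6 3 = 20 := by decide
  have h5 : Nat.choose 3 3 = 1 := by decide
  omega

/-- LA2 (c): the edges which meet three blocks. -/
theorem A_three (h3 : ∀ g ∈ F, g.card = 3) (hN : N ⊆ F) (hm : IsMatching N)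
    (hcov : ∀ g ∈ F, (bl N g).Nonempty) (hS : S ⊆ N) (hc : S.card = 3) :
    A F N S + miss F N S = 27 := by
  classical
  rw [A_levels h3 hcov, tr_lt (j := 1) hm (by omega), tr_lt (j := 2) hm (by omega),
    Finset.sum_empty, Finset.sum_empty]
  have h1 := present_add_miss F N S
  have h2 := card_tr_three hm (fun e he => h3 e (hN he)) hS hc (j := 3) (by norm_num)
  have h4 : Nat.choose 6 3 = 20 := by decide
  have h5 : Nat.choose 3 3 = 1 := by decide
  have h6 : Nat.choose 9 3 = 84 := by decide
  omega

theorem miss_one (hN : N ⊆ F) (hm : IsMatching N) (h3 : ∀ g ∈ F, g.card = 3) (he : e ∈ N) :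
    miss F N {e} = 0 := by
  unfold miss
  rw [Finset.card_eq_zero, Finset.filter_eq_empty_iff]
  intro t ht
  rw [tr_one_eq hm he (by norm_num), mem_powersetCard] at ht
  have : t = e := Finset.eq_of_subset_of_card_le ht.1 (by rw [ht.2, h3 e (hN he)])
  rw [this]
  exact not_not_intro (hN he)

/-- a sum over the nonempty subsets with at most three elements, by number of elements -/
theorem sum_levels (φ : Finset (Finset V) → ℕ) (h0 : φ ∅ = 0) (h4 : ∀ S, 4 ≤ S.card → φ S = 0) :
    ∑ S ∈ N.powerset, φ S = ∑ e ∈ N, φ {e} + ∑ S ∈ N.powersetCard 2, φ S +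
      ∑ S ∈ N.powersetCard 3, φ S := by
  classical
  rw [Finset.sum_powerset]
  have h1 : ∑ j ∈ range (N.card + 1), ∑ t ∈ powersetCard j N, φ t =
      ∑ j ∈ range (N.card + 4), ∑ t ∈ powersetCard j N, φ t := by
    apply Finset.sum_subset
    · intro j hj
      rw [mem_range] at hj ⊢
      omega
    · intro j _ hj
      rw [mem_range] at hj
      rw [Finset.powersetCard_eq_empty.2 (by omega), Finset.sum_empty]
  have h2 : ∑ j ∈ range (N.card + 4), ∑ t ∈ powersetCard j N, φ t =
      ∑ j ∈ range 4, ∑ t ∈ powersetCard j N, φ t := by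
    symm
    apply Finset.sum_subset
    · intro j hj
      rw [mem_range] at hj ⊢
      omega
    · intro j _ hj
      rw [mem_range] at hj
      refine Finset.sum_eq_zero fun t ht => h4 t ?_
      rw [(mem_powersetCard.1 ht).2]
      omega
  rw [h1, h2, Finset.sum_range_succ, Finset.sum_range_succ, Finset.sum_range_succ,
    Finset.sum_range_one, Finset.powersetCard_zero, Finset.sum_singleton, h0, zero_add,
    Finset.powersetCard_one, Finset.sum_map]
  rfl

/-- a sum over the `j`-subsets of `VS N`, by set of blocks -/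
theorem sum_pow (hm : IsMatching N) (hj : 0 < j) (hj3 : j ≤ 3) (φ : Finset V → ℕ) :
    ∑ p ∈ (VS N).powersetCard j, φ p = ∑ e ∈ N, ∑ p ∈ tr j N {e}, φ p +
      ∑ S ∈ N.powersetCard 2, ∑ p ∈ tr j N S, φ p +
      ∑ S ∈ N.powersetCard 3, ∑ p ∈ tr j N S, φ p := by
  classical
  rw [← sum_levels (N := N) (fun S => ∑ p ∈ tr j N S, φ p)]
  · rw [← Finset.sum_fiberwise_of_maps_to (s := (VS N).powersetCard j) (t := N.powerset)
      (g := bl N)]
    · rfl
    · intro p _
      rw [mem_powerset]
      exact bl_subset N p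
  · rw [tr_empty hj, Finset.sum_empty]
  · intro S hS
    rw [tr_lt hm (by omega), Finset.sum_empty]

theorem mu_eq (hN : N ⊆ F) (hm : IsMatching N) (h3 : ∀ g ∈ F, g.card = 3) :
    mu F N = ∑ S ∈ N.powersetCard 2, miss F N S + ∑ S ∈ N.powersetCard 3, miss F N S := by
  classical
  unfold mu
  rw [Finset.card_filter, sum_pow hm (by norm_num) le_rfl]
  have h1 : ∀ S, ∑ p ∈ tr 3 N S, (if p ∉ F then 1 else 0) = miss F N S := by
    intro S
    unfold miss
    rw [Finset.card_filter]
  simp only [h1]
  rw [Finset.sum_eq_zero fun e he => miss_one hN hm h3 he, zero_add]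

/-- LA2 (d): the exact identity. -/
theorem card_exact (h3 : ∀ g ∈ F, g.card = 3) (hN : N ⊆ F) (hm : IsMatching N)
    (hcov : ∀ g ∈ F, (bl N g).Nonempty) :
    F.card + mu F N = (3 * N.card).choose 3 + ∑ p ∈ (VS N).powersetCard 2, dW F (VS N) p +
      ∑ v ∈ VS N, gW F (VS N) v := by
  classical
  have hA : ∀ S, A F N S + miss F N S = ∑ p ∈ tr 1 N S, ex F (VS N) p +
      ∑ p ∈ tr 2 N S, dW F (VS N) p + (tr 3 N S).card := by
    intro S
    have h1 := present_add_miss F N S
    have h2 := A_levels (S := S) h3 hcov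
    omega
  have h0 := card_eq_levels h3 hm hcov
  have h1 := mu_eq hN hm h3
  have e1 : ∑ e ∈ N, A F N {e} = ∑ e ∈ N, (∑ p ∈ tr 1 N {e}, ex F (VS N) p +
      ∑ p ∈ tr 2 N {e}, dW F (VS N) p + (tr 3 N {e}).card) := by
    refine Finset.sum_congr rfl fun e he => ?_
    rw [← hA, miss_one hN hm h3 he, add_zero]
  have e2 : ∀ k, ∑ S ∈ N.powersetCard k, A F N S + ∑ S ∈ N.powersetCard k, miss F N S =
      ∑ S ∈ N.powersetCard k, (∑ p ∈ tr 1 N S, ex F (VS N) p +
      ∑ p ∈ tr 2 N S, dW F (VS N) p + (tr 3 N S).card) := by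
    intro k
    rw [← Finset.sum_add_distrib]
    exact Finset.sum_congr rfl fun S _ => hA S
  have h2 := e2 2
  have h4 := e2 3
  simp only [Finset.sum_add_distrib] at e1 h2 h4
  have s1 := sum_pow hm (j := 1) (by norm_num) (by norm_num) (ex F (VS N))
  have s2 := sum_pow hm (j := 2) (by norm_num) (by norm_num) (dW F (VS N))
  have s3 := sum_pow hm (j := 3) (by norm_num) le_rfl (fun _ => 1)
  simp only [Finset.sum_const, smul_eq_mul, mul_one] at s3
  rw [card_powersetCard, card_VS hm (fun e he => h3 e (hN he))] at s3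
  have s4 : ∑ p ∈ (VS N).powersetCard 1, ex F (VS N) p = ∑ v ∈ VS N, gW F (VS N) v := by
    rw [Finset.powersetCard_one, Finset.sum_map]
    exact Finset.sum_congr rfl fun v hv => ex_one h3 hv
  omega

theorem choose_shift (m : ℕ) : (m + 2).choose 3 = m.choose 3 + 2 * m.choose 2 + m := by
  rw [Nat.choose_succ_succ' (m + 1) 2, Nat.choose_succ_succ' m 2, Nat.choose_succ_succ' m 1,
    Nat.choose_one_right]
  ring

/-- LA2 (e), first form: `|F| - C(3s+2,3)` by blocks. -/
theorem card_blocks (h3 : ∀ g ∈ F, g.card = 3) (hN : N ⊆ F) (hm : IsMatching N)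
    (hcov : ∀ g ∈ F, (bl N g).Nonempty) :
    (F.card : ℤ) - ((3 * N.card + 2).choose 3 : ℕ) = ∑ e ∈ N, ((A F N {e} : ℤ) - 10) +
      ∑ S ∈ N.powersetCard 2, ((A F N S : ℤ) - 36) - ∑ S ∈ N.powersetCard 3, (miss F N S : ℤ) := by
  classical
  have h0 := card_eq_levels h3 hm hcov
  have h1 := num_id N.card
  have h2 : ∑ S ∈ N.powersetCard 3, A F N S + ∑ S ∈ N.powersetCard 3, miss F N S =
      27 * N.card.choose 3 := by
    rw [← Finset.sum_add_distrib, Finset.sum_congr rfl fun S hS => A_three h3 hN hm hcov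
      (mem_powersetCard.1 hS).1 (mem_powersetCard.1 hS).2, Finset.sum_const, card_powersetCard,
      smul_eq_mul, mul_comm]
  rw [Finset.sum_sub_distrib, Finset.sum_sub_distrib, Finset.sum_const, Finset.sum_const,
    card_powersetCard, nsmul_eq_mul, nsmul_eq_mul]
  zify at h0 h1 h2
  linarith

/-- LA2 (e), second form: `|F| - C(3s+2,3)` by pairs, points and missing triples of `VS N`. -/
theorem card_pairs (h3 : ∀ g ∈ F, g.card = 3) (hN : N ⊆ F) (hm : IsMatching N)
    (hcov : ∀ g ∈ F, (bl N g).Nonempty) :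
    (F.card : ℤ) - ((3 * N.card + 2).choose 3 : ℕ) =
      ∑ p ∈ (VS N).powersetCard 2, ((dW F (VS N) p : ℤ) - 2) +
        (∑ v ∈ VS N, (gW F (VS N) v : ℤ) - 3 * N.card) - mu F N := by
  classical
  have h0 := card_exact h3 hN hm hcov
  have h1 := choose_shift (3 * N.card)
  rw [Finset.sum_sub_distrib, Finset.sum_const, card_powersetCard,
    card_VS hm (fun e he => h3 e (hN he)), nsmul_eq_mul]
  zify at h0 h1
  linarith

end basic

end Res12
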