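import Pool.Agent.Helper65.Res.ClassSum

/-!
# Route A, assembly of the case `2 ≤ j`: from the list of bounds to the integer inequality
-/

namespace RouteA

open Finset Res12 Helper9.Res

set_option linter.unusedSectionVars false

/-- bound for a matching which is not of kind II -/
def cAB (s j : ℤ) : ℤ := max (-3 * j) (min (-(s + 4)) (2 * s - 4 - 3 * j))

/-- bound for a matching of kind II -/
def cC (s j : ℤ) : ℤ := min (s - 6 - j) (4 * s - 4 - 3 * j)

/-- bound for a matching between a flagged block and a block of type zero -/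
def cFL (s j : ℤ) : ℤ := max (min (-(s + j) - 6) (2 * s - 4 - 3 * j)) (min (-3 * s - j) (-3 * j))

/-- number of matchings of kind II between blocks of types `a`, `b` -/
def n2 (a b : ℕ) : ℤ :=
  if a = 0 ∨ b = 0 then 0 else if a = 3 ∨ b = 3 then 6 else if a = 1 ∧ b = 1 then 2 else 4

theorem n2_comm (a b : ℕ) : n2 a b = n2 b a := by
  unfold n2
  split_ifs <;> first | rfl | (exfalso; omega)

/-- one block without `G'`, times six -/
def cB (s : ℤ) (t : ℕ) : ℤ :=
  18 * s - 12 + (if t = 2 then max 0 (2 * s - 16) else if t = 3 then max 0 (2 * s - 10) else 0)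

/-- the `G'` of one block -/
def cG (s : ℤ) (t : ℕ) : ℤ := if t = 2 then s ^ 2 else if t = 3 then (s + 1) ^ 2 else 0

/-- the display of the final arithmetic -/
def disp (s j a0 a1 a2 a3 g2 g3 : ℤ) : ℤ :=
  3 * s * (s - 1) * cAB s j + (cC s j - cAB s j) *
    (a1 * (a1 - 1) + 4 * a1 * a2 + 2 * a2 * (a2 - 1) + 6 * (a1 + a2) * a3 + 3 * a3 * (a3 - 1)) +
  6 * (min (cFL s j) (cAB s j) - cAB s j) * a0 * (g2 + g3) + s * (18 * s - 12) - 6 * j * s +
  a2 * max 0 (2 * s - 16) + a3 * max 0 (2 * s - 10) + 6 * s ^ 2 * g2 + 6 * (s + 1) ^ 2 * g3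

variable {V : Type} [Fintype V] [DecidableEq V]

/-- the sum over the six perfect matchings of the cells of two blocks -/
def six (F P : Finset (Finset V)) (e f : Finset V) (u v t a b c : V) : ℤ :=
  Helper9.Res.T3 F P e f u v t a b c + Helper9.Res.T3 F P e f u v t a c b +
      Helper9.Res.T3 F P e f u v t b a c + Helper9.Res.T3 F P e f u v t b c a +
      Helper9.Res.T3 F P e f u v t c a b + Helper9.Res.T3 F P e f u v t c b a

/-- a block is flagged if it has a point with a `G'`-edge -/
def Flg (F P : Finset (Finset V)) (x y : V) (e : Finset V) : Prop :=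
  ∃ v ∈ e, (Gp F P x y v).Nonempty

section
variable {F P : Finset (Finset V)} {s j : ℕ} {x y : V} {e f : Finset V}

theorem N_comm' (F : Finset (Finset V)) (a b : V) : N F a b = N F b a := by
  ext z
  rw [mem_N, mem_N, Finset.insert_comm]

theorem tau_symm (a b : V) : tau F P e f a b = tau F P f e b a := by
  unfold tau lam dW m3 m2
  rw [N_comm' F a b, Finset.pair_comm e f, Finset.union_comm e f, Finset.pair_comm a b]
  have h1 : ∀ z : V, ({a, b, z} : Finset V) = {b, a, z} := by
    intro z
    rw [Finset.insert_comm]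
  simp only [h1]

theorem sum_tau_symm : ∑ q ∈ e, ∑ r ∈ f, tau F P e f q r = ∑ r ∈ f, ∑ q ∈ e, tau F P f e r q := by
  rw [Finset.sum_comm]
  exact Finset.sum_congr rfl fun r _ => Finset.sum_congr rfl fun q _ => tau_symm q r

theorem SetUp.six_eq (h : SetUp F s j P x y) {u v t a b c : V} (p : Pm P e f u v t a b c) :
    six F P e f u v t a b c = 2 * ∑ q ∈ e, ∑ r ∈ f, tau F P e f q r :=
  (h.two_sum_T3 p).symm

theorem SetUp.six_symm (h : SetUp F s j P x y) {u v t a b c : V} (p : Pm P e f u v t a b c) :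
    six F P e f u v t a b c = six F P f e a b c u v t := by
  rw [h.six_eq p, h.six_eq p.tr, sum_tau_symm]

/-- flagged classes -/
def fcl : Fin 6 → Bool := ![false, false, false, false, true, true]

theorem bcl_flag (hG : ∀ v ∈ e, (Gp F P x y v).Nonempty → 2 ≤ ty F x y e)
    (ht : ty F x y e ≤ 3) : fcl (bcl F P x y e) = true ↔ Flg F P x y e := by
  by_cases hf : ∃ v ∈ e, (Gp F P x y v).Nonempty
  · have h1 : 2 ≤ ty F x y e := by
      obtain ⟨v, hv, hv'⟩ := hf
      exact hG v hv hv'
    have h2 : bcl F P x y e = 4 ∨ bcl F P x y e = 5 := by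
      unfold bcl
      rw [if_neg (by omega), if_neg (by omega), if_pos hf, if_pos hf]
      split_ifs
      · exact Or.inl rfl
      · exact Or.inr rfl
    constructor
    · intro _
      exact hf
    · intro _
      rcases h2 with h2 | h2 <;> rw [h2] <;> rfl
  · constructor
    · intro h3
      exfalso
      unfold bcl at h3
      rw [if_neg hf, if_neg hf] at h3
      revert h3
      split_ifs <;> decide
    · intro h3
      exact absurd h3 hf

/-- the table of pair bounds -/
def cPair (s j : ℤ) (i k : Fin 6) : ℤ :=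
  if (fcl i = true ∧ tcl k = 0) ∨ (tcl i = 0 ∧ fcl k = true) then 6 * min (cFL s j) (cAB s j)
  else (6 - n2 (tcl i) (tcl k)) * cAB s j + n2 (tcl i) (tcl k) * cC s j

/-- the table of block bounds -/
def cBlock (s j : ℤ) (i : Fin 6) : ℤ :=
  cB s (tcl i) - 6 * j + (if fcl i = true then 6 * cG s (tcl i) else 0)

theorem sum_cPair (s j : ℤ) (n : Fin 6 → ℤ) (h1 : n 0 + n 1 + n 2 + n 3 + n 4 + n 5 = s) :
    ∑ i, ∑ k, n i * n k * cPair s j i k - ∑ i, n i * cPair s j i i + 2 * ∑ i, n i * cBlock s j i =
      2 * disp s j (n 0) (n 1) (n 2 + n 4) (n 3 + n 5) (n 4) (n 5) := by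
  have e1 : s = n 0 + n 1 + n 2 + n 3 + n 4 + n 5 := h1.symm
  simp only [Fin.sum_univ_six]
  have t0 : tcl 0 = 0 := rfl
  have t1 : tcl 1 = 1 := rfl
  have t2 : tcl 2 = 2 := rfl
  have t3 : tcl 3 = 3 := rfl
  have t4 : tcl 4 = 2 := rfl
  have t5 : tcl 5 = 3 := rfl
  have f0 : fcl 0 = false := rfl
  have f1 : fcl 1 = false := rfl
  have f2 : fcl 2 = false := rfl
  have f3 : fcl 3 = false := rfl
  have f4 : fcl 4 = true := rfl
  have f5 : fcl 5 = true := rfl
  unfold cPair cBlock cB cG n2 disp
  simp only [t0, t1, t2, t3, t4, t5, f0, f1, f2, f3, f4, f5]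
  norm_num
  generalize cAB s j = A
  generalize cC s j = C
  generalize min (cFL s j) A = L
  generalize max 0 (2 * s - 16) = b2
  generalize max 0 (2 * s - 10) = b3
  generalize n 0 = m0 at *
  generalize n 1 = m1 at *
  generalize n 2 = m2 at *
  generalize n 3 = m3 at *
  generalize n 4 = m4 at *
  generalize n 5 = m5 at *
  subst e1
  ring

/-- **[A2]** the case `2 ≤ j` from the list of bounds and the final arithmetic -/
theorem SetUp.card_le_list (h : SetUp F s j P x y)
    (hP : ∀ e f : Finset V, ∀ u v t a b c : V, Pm P e f u v t a b c →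
      six F P e f u v t a b c ≤
        (6 - n2 (ty F x y e) (ty F x y f)) * cAB s j + n2 (ty F x y e) (ty F x y f) * cC s j)
    (hL : ∀ e f : Finset V, ∀ u v t a b c : V, Pm P e f u v t a b c → ty F x y f = 0 →
      Flg F P x y e → six F P e f u v t a b c ≤ 6 * cFL s j)
    (hT : ∀ e ∈ P, ∀ v ∈ e, (Gp F P x y v).Nonempty → 2 ≤ ty F x y e)
    (hB : ∀ e ∈ P, 4 * ∑ p ∈ e.powersetCard 2, ((Helper28.Res.dg F (VS P) p : ℤ) - 2) +
      6 * ∑ v ∈ e, (((lb F P x y x v).card : ℤ) + (lb F P x y y v).card) - 6 * ty F x y e ≤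
        cB s (ty F x y e))
    (hG : ∀ e ∈ P, ∑ v ∈ e, ((Gp F P x y v).card : ℤ) ≤ cG s (ty F x y e))
    (hfin : ∀ a0 a1 a2 a3 g2 g3 : ℤ, 0 ≤ a0 → 0 ≤ a1 → 0 ≤ g2 → g2 ≤ a2 → 0 ≤ g3 → g3 ≤ a3 →
      a0 + a1 + a2 + a3 = s → a1 + 2 * a2 + 3 * a3 = j → disp s j a0 a1 a2 a3 g2 g3 ≤ 0) :
    F.card ≤ (3 * s + 2).choose 3 := by
  refine h.frame_six (fun i k => cPair s j i k) (fun i => cBlock s j i) ?_ ?_ ?_
  · intro e f u v t a b c p
    change six F P e f u v t a b c ≤ _
    have te := RouteA.ty_le (F := F) (x := x) (y := y) h.threeP p.he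
    have tf := RouteA.ty_le (F := F) (x := x) (y := y) h.threeP p.hf
    have fe := bcl_flag (hT e p.he) te
    have ff := bcl_flag (hT f p.hf) tf
    have k1 := tcl_bcl (F := F) (x := x) (y := y) h.threeP p.he
    have k2 := tcl_bcl (F := F) (x := x) (y := y) h.threeP p.hf
    have h1 := hP e f u v t a b c p
    unfold cPair
    rw [k1, k2]
    split_ifs with hc
    · have h0 : n2 (ty F x y e) (ty F x y f) = 0 := by
        unfold n2
        rw [if_pos]
        rcases hc with hc | hc
        · exact Or.inr hc.2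
        · exact Or.inl hc.1
      rw [h0] at h1
      have h2 : six F P e f u v t a b c ≤ 6 * cFL s j := by
        rcases hc with hc | hc
        · exact hL e f u v t a b c p hc.2 (fe.1 hc.1)
        · rw [h.six_symm p]
          exact hL f e a b c u v t p.tr hc.1 (ff.1 hc.2)
      rcases le_total (cFL s j) (cAB s j) with hle | hle
      · rw [min_eq_left hle]
        exact h2
      · rw [min_eq_right hle]
        linarith
    · exact h1
  · intro e he
    have te := RouteA.ty_le (F := F) (x := x) (y := y) h.threeP he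
    have fe := bcl_flag (hT e he) te
    have k1 := tcl_bcl (F := F) (x := x) (y := y) h.threeP he
    have h1 := hB e he
    have h2 := hG e he
    have h3 : ∑ v ∈ e, (((Gp F P x y v).card : ℤ) + (lb F P x y x v).card +
        (lb F P x y y v).card) = ∑ v ∈ e, ((Gp F P x y v).card : ℤ) +
        ∑ v ∈ e, (((lb F P x y x v).card : ℤ) + (lb F P x y y v).card) := by
      rw [← Finset.sum_add_distrib]
      exact Finset.sum_congr rfl fun v _ => by ring
    unfold cBlock
    rw [k1, h3]
    split_ifs with hc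
    · linarith
    · have h4 : ∑ v ∈ e, ((Gp F P x y v).card : ℤ) = 0 := by
        apply Finset.sum_eq_zero
        intro v hv
        have h5 : ¬ (Gp F P x y v).Nonempty := fun h6 => hc (fe.2 ⟨v, hv, h6⟩)
        rw [Finset.not_nonempty_iff_eq_empty] at h5
        rw [h5]
        simp
      rw [h4]
      linarith
  · intro n h1 h2
    have h3 := sum_cPair s j (fun i => (n i : ℤ)) (by
      change (n 0 : ℤ) + n 1 + n 2 + n 3 + n 4 + n 5 = s
      exact_mod_cast h1)
    have h4 := hfin (n 0) (n 1) (n 2 + n 4) (n 3 + n 5) (n 4) (n 5) (by positivity) (by positivity)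
      (by positivity) (by linarith [Int.natCast_nonneg (n 2)]) (by positivity)
      (by linarith [Int.natCast_nonneg (n 3)]) (by
        have : ((n 0 + n 1 + n 2 + n 3 + n 4 + n 5 : ℕ) : ℤ) = s := by exact_mod_cast h1
        push_cast at this
        linarith) (by
        have : ((n 1 + 2 * n 2 + 3 * n 3 + 2 * n 4 + 3 * n 5 : ℕ) : ℤ) = j := by exact_mod_cast h2
        push_cast at this
        linarith)
    refine le_trans (le_of_eq h3) ?_
    linarith

end

end RouteA
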