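import Pool.Agent.Helper65.Res.J2G
import Pool.Agent.Helper48.Res.HFin

/-!
# Route A, the case `2 ≤ j`
-/

namespace RouteA

open Finset Res12

/-- **the case `2 ≤ j`** -/
theorem SetUp.card_le_j2 {V : Type} [Fintype V] [DecidableEq V] {F P : Finset (Finset V)}
    {s j : ℕ} {x y : V} (h : SetUp F s j P x y) (hs : 3 ≤ s) (hj : 2 ≤ j) :
    F.card ≤ (3 * s + 2).choose 3 :=
  h.card_le_of_fin hs hj
    (Helper48.Res.hfin (s : ℤ) (j : ℤ) (by exact_mod_cast hs) (by exact_mod_cast hj))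

end RouteA
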