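import Mathlib
import Pool.Agent.Helper12.Res.Defs

/-!
# Project RES (MP_d365ae_co), leaf L2: local to global

`loc_count`: the counting identity.
`opt_hyp`: an optimal barrier has a 2-resilient complement.
`local_global`: the local-global lemma.
-/

namespace Res12

open Finset

set_option linter.unusedSectionVars false

variable {V : Type} [Fintype V] [DecidableEq V]

/-- The members of `F` disjoint from `T`. -/
def av (F : Finset (Finset V)) (T : Finset V) : Finset (Finset V) :=
  F.filter (fun g => Disjoint g T)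

theorem mem_av {F : Finset (Finset V)} {T g : Finset V} :
    g ∈ av F T ↔ g ∈ F ∧ Disjoint g T := by
  unfold av
  rw [mem_filter]

theorem av_subset (F : Finset (Finset V)) (T : Finset V) : av F T ⊆ F := filter_subset _ _

theorem av_av (F : Finset (Finset V)) (T T' : Finset V) : av (av F T) T' = av F (T ∪ T') := by
  ext g
  rw [mem_av, mem_av, mem_av, disjoint_union_right, and_assoc]

theorem av_mono {F : Finset (Finset V)} {T T' : Finset V} (h : T ⊆ T') : av F T' ⊆ av F T := by
  intro g hg
  rw [mem_av] at hg ⊢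
  exact ⟨hg.1, hg.2.mono_right h⟩

theorem av_empty (F : Finset (Finset V)) : av F ∅ = F := by
  ext g
  rw [mem_av]
  simp

theorem VS_mono {P Q : Finset (Finset V)} (h : P ⊆ Q) : VS P ⊆ VS Q := by
  intro v hv
  obtain ⟨e, he, hve⟩ := mem_VS.1 hv
  exact mem_VS.2 ⟨e, h he, hve⟩

theorem VS_empty : VS (∅ : Finset (Finset V)) = ∅ := by
  unfold VS
  simp

/-- The blocks of `N` which meet `g`. -/
def bl (N : Finset (Finset V)) (g : Finset V) : Finset (Finset V) :=
  N.filter (fun b => ¬ Disjoint b g)

theorem bl_subset (N : Finset (Finset V)) (g : Finset V) : bl N g ⊆ N := filter_subset _ _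

theorem mem_bl {N : Finset (Finset V)} {g b : Finset V} :
    b ∈ bl N g ↔ b ∈ N ∧ ¬ Disjoint b g := by
  unfold bl
  rw [mem_filter]

theorem disjoint_VS_sdiff {N S : Finset (Finset V)} {g : Finset V} (h : bl N g ⊆ S) :
    Disjoint g (VS (N \ S)) := by
  rw [Finset.disjoint_left]
  intro v hv hv'
  obtain ⟨b, hb, hvb⟩ := mem_VS.1 hv'
  rw [mem_sdiff] at hb
  exact hb.2 (h (mem_bl.2 ⟨hb.1, fun hd => Finset.disjoint_left.1 hd hvb hv⟩))

theorem card_bl_le {N : Finset (Finset V)} (hm : IsMatching N) {g : Finset V} :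
    (bl N g).card ≤ g.card := by
  classical
  rcases (bl N g).eq_empty_or_nonempty with h0 | ⟨b0, hb0⟩
  · rw [h0]
    simp
  have h : ∀ b ∈ bl N g, ∃ v, v ∈ b ∧ v ∈ g := by
    intro b hb
    obtain ⟨v, h1, h2⟩ := Finset.not_disjoint_iff.1 (mem_bl.1 hb).2
    exact ⟨v, h1, h2⟩
  obtain ⟨v0, -, -⟩ := h b0 hb0
  have : Nonempty V := ⟨v0⟩
  choose! p hp using h
  refine card_le_card_of_injOn p (fun b hb => (hp b hb).2) ?_
  intro b hb b' hb' heq
  by_contra hne
  have h1 := hp b hb
  have h2 := hp b' hb'
  rw [heq] at h1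
  exact Finset.disjoint_left.1 (hm b (mem_bl.1 hb).1 b' (mem_bl.1 hb').1 hne) h1.1 h2.1

/-- At most 27 edges meet three given blocks. -/
theorem card_three {F N : Finset (Finset V)} (h3 : ∀ e ∈ F, e.card = 3) (hN : ∀ e ∈ N, e.card = 3)
    (hm : IsMatching N) {S : Finset (Finset V)} (hS : S ⊆ N) (hc : S.card = 3) :
    (F.filter (fun g => bl N g = S)).card ≤ 27 := by
  classical
  obtain ⟨a, b, c, hab, hac, hbc, rfl⟩ := Finset.card_eq_three.1 hc
  have haN : a ∈ N := hS (by simp)
  have hbN : b ∈ N := hS (by simp)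
  have hcN : c ∈ N := hS (by simp)
  have hcard : (a ×ˢ b ×ˢ c).card = 27 := by
    rw [card_product, card_product, hN a haN, hN b hbN, hN c hcN]
  rw [← hcard]
  have hex : ∀ g ∈ F.filter (fun g => bl N g = {a, b, c}), ∃ x : V × V × V,
      x ∈ a ×ˢ b ×ˢ c ∧ g = {x.1, x.2.1, x.2.2} := by
    intro g hg
    rw [mem_filter] at hg
    obtain ⟨hgF, hgS⟩ := hg
    have ha : a ∈ bl N g := by rw [hgS]; simp
    have hb : b ∈ bl N g := by rw [hgS]; simp
    have hcc : c ∈ bl N g := by rw [hgS]; simp
    obtain ⟨x, hxa, hxg⟩ := Finset.not_disjoint_iff.1 (mem_bl.1 ha).2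
    obtain ⟨y, hyb, hyg⟩ := Finset.not_disjoint_iff.1 (mem_bl.1 hb).2
    obtain ⟨z, hzc, hzg⟩ := Finset.not_disjoint_iff.1 (mem_bl.1 hcc).2
    have hxy : x ≠ y := by
      rintro rfl
      exact Finset.disjoint_left.1 (hm a haN b hbN hab) hxa hyb
    have hxz : x ≠ z := by
      rintro rfl
      exact Finset.disjoint_left.1 (hm a haN c hcN hac) hxa hzc
    have hyz : y ≠ z := by
      rintro rfl
      exact Finset.disjoint_left.1 (hm b hbN c hcN hbc) hyb hzc
    refine ⟨(x, y, z), ?_, ?_⟩
    · rw [mem_product, mem_product]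
      exact ⟨hxa, hyb, hzc⟩
    · symm
      apply Finset.eq_of_subset_of_card_le
      · intro v hv
        simp only [mem_insert, mem_singleton] at hv
        rcases hv with rfl | rfl | rfl
        · exact hxg
        · exact hyg
        · exact hzg
      · rw [h3 g hgF, Finset.card_eq_three.2 ⟨x, y, z, hxy, hxz, hyz, rfl⟩]
  have hne : a.Nonempty := by
    rw [← Finset.card_pos, hN a haN]
    norm_num
  obtain ⟨v0, -⟩ := hne
  have : Nonempty (V × V × V) := ⟨(v0, v0, v0)⟩
  choose! p hp using hex
  refine card_le_card_of_injOn p (fun g hg => (hp g hg).1) ?_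
  intro g hg g' hg' heq
  rw [(hp g hg).2, (hp g' hg').2, heq]

/-- The numerical identity. -/
theorem choose_identity (m : ℕ) :
    ∑ k ∈ range (m + 1), m.choose k • (if k = 1 then 10 else if k = 2 then 36 else
      if k = 3 then 27 else 0) = (3 * m + 2).choose 3 := by
  have h1 : ∀ m : ℕ, ∑ k ∈ range (m + 1), m.choose k • (if k = 1 then 10 else if k = 2 then 36 else
      if k = 3 then 27 else 0) = m * 10 + m.choose 2 * 36 + m.choose 3 * 27 := by
    intro m
    have hsub : ∑ k ∈ range (m + 1), m.choose k • (if k = 1 then 10 else if k = 2 then 36 else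
        if k = 3 then 27 else 0) =
        ∑ k ∈ range (m + 4), m.choose k • (if k = 1 then 10 else if k = 2 then 36 else
        if k = 3 then 27 else 0) := by
      apply Finset.sum_subset
      · intro k hk
        rw [mem_range] at hk ⊢
        omega
      · intro k _ hk
        rw [mem_range] at hk
        rw [Nat.choose_eq_zero_of_lt (by omega), zero_smul]
    rw [hsub]
    have hterm : ∀ k ∈ range (m + 4), m.choose k • (if k = 1 then 10 else if k = 2 then 36 else
        if k = 3 then 27 else 0) = (if 1 = k then m * 10 else 0) +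
        (if 2 = k then m.choose 2 * 36 else 0) + (if 3 = k then m.choose 3 * 27 else 0) := by
      intro k _
      by_cases k1 : k = 1
      · subst k1
        simp
      · by_cases k2 : k = 2
        · subst k2
          simp
        · by_cases k3 : k = 3
          · subst k3
            simp
          · rw [if_neg k1, if_neg k2, if_neg k3, if_neg (Ne.symm k1), if_neg (Ne.symm k2),
              if_neg (Ne.symm k3), smul_zero, add_zero, add_zero]
    rw [Finset.sum_congr rfl hterm, Finset.sum_add_distrib, Finset.sum_add_distrib,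
      Finset.sum_ite_eq, Finset.sum_ite_eq, Finset.sum_ite_eq, if_pos (mem_range.2 (by omega)),
      if_pos (mem_range.2 (by omega)), if_pos (mem_range.2 (by omega))]
  rw [h1]
  induction m with
  | zero => rfl
  | succ m ih =>
    have h2 : (3 * (m + 1) + 2).choose 3 = (3 * m + 2).choose 3 + (3 * m + 2).choose 2 +
        (3 * m + 3).choose 2 + (3 * m + 4).choose 2 := by
      have e1 : 3 * (m + 1) + 2 = (3 * m + 4) + 1 := by ring
      rw [e1, Nat.choose_succ_succ' (3 * m + 4) 2, show 3 * m + 4 = (3 * m + 3) + 1 by ring,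
        Nat.choose_succ_succ' (3 * m + 3) 2, show 3 * m + 3 = (3 * m + 2) + 1 by ring,
        Nat.choose_succ_succ' (3 * m + 2) 2]
      ring
    have h5 : (m + 1).choose 2 = m + m.choose 2 := by
      rw [Nat.choose_succ_succ' m 1, Nat.choose_one_right]
    have h6 : (m + 1).choose 3 = m.choose 2 + m.choose 3 := Nat.choose_succ_succ' m 2
    have h7 : ∀ n : ℕ, (n + 1).choose 2 = n + n.choose 2 := by
      intro n
      rw [Nat.choose_succ_succ' n 1, Nat.choose_one_right]
    have h8 : (3 * m + 2).choose 2 = 9 * m.choose 2 + 9 * m + 1 := by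
      have h9 : ∀ m : ℕ, (3 * m + 2).choose 2 = 9 * m.choose 2 + 9 * m + 1 := by
        intro m
        induction m with
        | zero => rfl
        | succ m ih =>
          rw [show 3 * (m + 1) + 2 = (3 * m + 4) + 1 by ring, h7,
            show 3 * m + 4 = (3 * m + 3) + 1 by ring, h7,
            show 3 * m + 3 = (3 * m + 2) + 1 by ring, h7, ih, h7 m]
          ring
      exact h9 m
    have h10 : (3 * m + 3).choose 2 = (3 * m + 2) + (3 * m + 2).choose 2 := h7 (3 * m + 2)
    have h11 : (3 * m + 4).choose 2 = (3 * m + 3) + (3 * m + 3).choose 2 := h7 (3 * m + 3)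
    rw [h2, ← ih, h5, h6, h11, h10, h8]
    ring

/-- The counting identity: if the local pieces of `F` relative to the matching `N` are
2-resilient with the right matching numbers then `|F| ≤ C(3m+2,3)`. -/
theorem loc_count (EL : ∀ H : Finset (Finset V), Hyp H 1 → H.card ≤ 10)
    (B36 : ∀ H : Finset (Finset V), Hyp H 2 → ∀ e ∈ H, ∀ f ∈ H, Disjoint e f →
      Hyp (av H f) 1 → Hyp (av H e) 1 →
      (H.filter (fun g => ¬ Disjoint g e ∧ ¬ Disjoint g f)).card ≤ 36)
    {F N : Finset (Finset V)} (h3 : ∀ e ∈ F, e.card = 3) (hN : N ⊆ F) (hm : IsMatching N)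
    (hloc : ∀ S ⊆ N, S.card ≤ 2 → Hyp (av F (VS (N \ S))) S.card) :
    F.card ≤ (3 * N.card + 2).choose 3 := by
  classical
  have hN3 : ∀ e ∈ N, e.card = 3 := fun e he => h3 e (hN he)
  rw [Finset.card_eq_sum_card_fiberwise (f := bl N) (t := N.powerset)
    (fun g _ => by simpa using bl_subset N g)]
  rw [← choose_identity, ← Finset.sum_powerset_apply_card]
  refine Finset.sum_le_sum fun S hS => ?_
  rw [mem_powerset] at hS
  -- the members of `S` are in the local piece
  have hmem : ∀ b ∈ S, b ∈ av F (VS (N \ S)) := by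
    intro b hb
    rw [mem_av]
    refine ⟨hN (hS hb), ?_⟩
    rw [Finset.disjoint_left]
    intro v hv hv'
    obtain ⟨b', hb', hvb'⟩ := mem_VS.1 hv'
    rw [mem_sdiff] at hb'
    have hne : b ≠ b' := by
      rintro rfl
      exact hb'.2 hb
    exact Finset.disjoint_left.1 (hm b (hS hb) b' hb'.1 hne) hv hvb'
  rcases Nat.lt_or_ge 3 S.card with h4 | h4
  · -- no edge meets more than 3 blocks
    rw [if_neg (by omega), if_neg (by omega), if_neg (by omega)]
    rw [Nat.le_zero, Finset.card_eq_zero, Finset.filter_eq_empty_iff]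
    intro g hg hgS
    have := card_bl_le hm (g := g)
    rw [hgS, h3 g hg] at this
    omega
  · interval_cases hc : S.card
    · -- S empty
      rw [if_neg (by omega), if_neg (by omega), if_neg (by omega)]
      rw [Nat.le_zero, Finset.card_eq_zero, Finset.filter_eq_empty_iff]
      intro g hg hgS
      rw [Finset.card_eq_zero] at hc
      have h0 := hloc S hS (by rw [hc]; simp)
      have hg' : g ∈ av F (VS (N \ S)) := mem_av.2 ⟨hg, disjoint_VS_sdiff hgS.le⟩
      have h1 := h0.le {g} (by simpa using hg') (by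
        intro e he f hf hef
        rw [mem_singleton] at he hf
        exact absurd (he.trans hf.symm) hef)
      rw [hc] at h1
      simp at h1
    · -- one block
      rw [if_pos rfl]
      have h0 := hloc S hS (by omega)
      rw [hc] at h0
      refine le_trans (card_le_card ?_) (EL _ h0)
      intro g hg
      rw [mem_filter] at hg
      exact mem_av.2 ⟨hg.1, disjoint_VS_sdiff hg.2.le⟩
    · -- two blocks
      rw [if_neg (by omega), if_pos rfl]
      have h0 := hloc S hS (by omega)
      rw [hc] at h0
      obtain ⟨e, f, hef, rfl⟩ := Finset.card_eq_two.1 hc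
      have heN : e ∈ N := hS (by simp)
      have hfN : f ∈ N := hS (by simp)
      have key : ∀ e f : Finset V, e ≠ f → e ∈ N → f ∈ N →
          Hyp (av (av F (VS (N \ {e, f}))) f) 1 := by
        intro e f hef heN hfN
        have h1 := hloc {e} (by simpa using heN) (by simp)
        rw [card_singleton] at h1
        have h2 : av (av F (VS (N \ {e, f}))) f = av F (VS (N \ {e})) := by
          rw [av_av]
          congr 1
          ext v
          rw [mem_union, mem_VS, mem_VS]
          constructor
          · rintro (⟨b, hb, hvb⟩ | hv)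
            · refine ⟨b, ?_, hvb⟩
              simp only [mem_sdiff, mem_insert, mem_singleton, not_or] at hb ⊢
              exact ⟨hb.1, hb.2.1⟩
            · refine ⟨f, ?_, hv⟩
              simp only [mem_sdiff, mem_singleton]
              exact ⟨hfN, hef.symm⟩
          · rintro ⟨b, hb, hvb⟩
            simp only [mem_sdiff, mem_singleton] at hb
            by_cases hbf : b = f
            · right
              rw [← hbf]
              exact hvb
            · left
              refine ⟨b, ?_, hvb⟩
              simp only [mem_sdiff, mem_insert, mem_singleton, not_or]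
              exact ⟨hb.1, hb.2, hbf⟩
        rw [h2]
        exact h1
      have he1 := key e f hef heN hfN
      have hf1 : Hyp (av (av F (VS (N \ {e, f}))) e) 1 := by
        have := key f e hef.symm hfN heN
        rwa [Finset.pair_comm f e] at this
      refine le_trans (card_le_card ?_)
        (B36 _ h0 e (hmem e (by simp)) f (hmem f (by simp)) (hm e heN f hfN hef) he1 hf1)
      intro g hg
      rw [mem_filter] at hg ⊢
      refine ⟨mem_av.2 ⟨hg.1, disjoint_VS_sdiff hg.2.le⟩, ?_, ?_⟩
      · have : e ∈ bl N g := by rw [hg.2]; simp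
        intro hd
        exact (mem_bl.1 this).2 hd.symm
      · have : f ∈ bl N g := by rw [hg.2]; simp
        intro hd
        exact (mem_bl.1 this).2 hd.symm
    · -- three blocks
      rw [if_neg (by omega), if_neg (by omega), if_pos rfl]
      exact card_three h3 hN3 hm hS hc

/-! ### The matching number and barriers -/

open Classical in
/-- The matching number. -/
noncomputable def nu (F : Finset (Finset V)) : ℕ :=
  (F.powerset.filter (fun P => IsMatching P)).sup Finset.card

theorem card_le_nu {F P : Finset (Finset V)} (hP : P ⊆ F) (hm : IsMatching P) :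
    P.card ≤ nu F := by
  classical
  unfold nu
  apply Finset.le_sup (f := Finset.card)
  rw [mem_filter, mem_powerset]
  exact ⟨hP, hm⟩

theorem isMatching_empty : IsMatching (∅ : Finset (Finset V)) := by
  intro e he
  simp at he

theorem exists_nu (F : Finset (Finset V)) : ∃ P ⊆ F, IsMatching P ∧ P.card = nu F := by
  classical
  have hne : (F.powerset.filter (fun P => IsMatching P)).Nonempty := by
    refine ⟨∅, ?_⟩
    rw [mem_filter, mem_powerset]
    exact ⟨empty_subset _, isMatching_empty⟩
  obtain ⟨P, hP, hc⟩ := Finset.exists_mem_eq_sup _ hne Finset.card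
  rw [mem_filter, mem_powerset] at hP
  exact ⟨P, hP.1, hP.2, hc.symm⟩

theorem nu_mono {F G : Finset (Finset V)} (h : F ⊆ G) : nu F ≤ nu G := by
  obtain ⟨P, hP, hm, hc⟩ := exists_nu F
  rw [← hc]
  exact card_le_nu (hP.trans h) hm

theorem nu_le_of {F : Finset (Finset V)} {s : ℕ} (h : ∀ P ⊆ F, IsMatching P → P.card ≤ s) :
    nu F ≤ s := by
  obtain ⟨P, hP, hm, hc⟩ := exists_nu F
  rw [← hc]
  exact h P hP hm

theorem Hyp.nu_le {F : Finset (Finset V)} {s : ℕ} (h : Hyp F s) : nu F ≤ s := nu_le_of h.le

theorem Hyp.le_nu {F : Finset (Finset V)} {s : ℕ} (h : Hyp F s) (a b : V) :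
    s ≤ nu (av F {a, b}) := by
  obtain ⟨P, hP, hm, hc, hav⟩ := h.avoid a b
  rw [← hc]
  refine card_le_nu (fun e he => mem_av.2 ⟨hP he, ?_⟩) hm
  rw [Finset.disjoint_left]
  intro v hv hv'
  simp only [mem_insert, mem_singleton] at hv'
  rcases hv' with rfl | rfl
  · exact (hav e he).1 hv
  · exact (hav e he).2 hv

/-- The hypotheses in terms of the matching number. -/
theorem hyp_of_nu {F : Finset (Finset V)} (h3 : ∀ e ∈ F, e.card = 3)
    (h : ∀ a b : V, nu F ≤ nu (av F {a, b})) : Hyp F (nu F) where
  three := h3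
  le P hP hm := card_le_nu hP hm
  avoid a b := by
    obtain ⟨P, hP, hm, hc⟩ := exists_nu (av F {a, b})
    have h1 : nu (av F {a, b}) = nu F := le_antisymm (nu_mono (av_subset _ _)) (h a b)
    refine ⟨P, hP.trans (av_subset _ _), hm, hc.trans h1, fun e he => ?_⟩
    have h2 := (mem_av.1 (hP he)).2
    constructor
    · intro hae
      exact Finset.disjoint_left.1 h2 hae (by simp)
    · intro hbe
      exact Finset.disjoint_left.1 h2 hbe (by simp)

/-- An optimal barrier has a 2-resilient complement. -/
theorem opt_hyp {F : Finset (Finset V)} {s D : ℕ} (h3 : ∀ e ∈ F, e.card = 3)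
    (hD : ∀ T : Finset V, 3 * s ≤ D + T.card + 3 * nu (av F T)) {T : Finset V}
    (hT : D + T.card + 3 * nu (av F T) ≤ 3 * s) : Hyp (av F T) (nu (av F T)) := by
  refine hyp_of_nu (fun e he => h3 e (av_subset _ _ he)) fun a b => ?_
  rw [av_av]
  have h1 := hD (T ∪ {a, b})
  have h2 : (T ∪ {a, b}).card ≤ T.card + 2 :=
    (card_union_le _ _).trans (Nat.add_le_add_left card_le_two _)
  omega

theorem card_VS_sdiff {N S : Finset (Finset V)} (hm : IsMatching N) (h3 : ∀ e ∈ N, e.card = 3)
    (hS : S ⊆ N) : (VS (N \ S)).card + 3 * S.card = 3 * N.card := by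
  rw [card_VS (hm.mono sdiff_subset) (fun e he => h3 e (sdiff_subset he)),
    card_sdiff_of_subset hS]
  have := card_le_card hS
  omega

/-- The local-global lemma (helper83). `D` the deficiency, `P` a set of `3 q - D` vertices, `N` a
matching of `F - P` with `s - q` edges which can not be augmented inside `F - P` by exchanging at
most two of its blocks. -/
theorem local_global (EL : ∀ H : Finset (Finset V), Hyp H 1 → H.card ≤ 10)
    (B36 : ∀ H : Finset (Finset V), Hyp H 2 → ∀ e ∈ H, ∀ f ∈ H, Disjoint e f →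
      Hyp (av H f) 1 → Hyp (av H e) 1 →
      (H.filter (fun g => ¬ Disjoint g e ∧ ¬ Disjoint g f)).card ≤ 36)
    {F : Finset (Finset V)} {s D : ℕ} (h3 : ∀ e ∈ F, e.card = 3)
    (hD : ∀ T : Finset V, 3 * s ≤ D + T.card + 3 * nu (av F T))
    {P : Finset V} {N : Finset (Finset V)} (hN : N ⊆ av F P) (hm : IsMatching N)
    (hc : D + P.card + 3 * N.card ≤ 3 * s)
    (hblock : ∀ S ⊆ N, S.card ≤ 2 → nu (av (av F P) (VS (N \ S))) ≤ S.card) :
    (av F P).card ≤ (3 * N.card + 2).choose 3 := by
  have hN3 : ∀ e ∈ N, e.card = 3 := fun e he => h3 e (av_subset _ _ (hN he))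
  refine loc_count EL B36 (fun e he => h3 e (av_subset _ _ he)) hN hm fun S hS hS2 => ?_
  have h1 := hblock S hS hS2
  rw [av_av] at h1 ⊢
  have h2 := hD (P ∪ VS (N \ S))
  have h4 := card_union_le P (VS (N \ S))
  have h5 := card_VS_sdiff hm hN3 hS
  have h6 : nu (av F (P ∪ VS (N \ S))) = S.card := by omega
  rw [← h6]
  exact opt_hyp h3 hD (by omega)

/-- The complement of an optimal barrier is small. -/
theorem card_av_opt (EL : ∀ H : Finset (Finset V), Hyp H 1 → H.card ≤ 10)
    (B36 : ∀ H : Finset (Finset V), Hyp H 2 → ∀ e ∈ H, ∀ f ∈ H, Disjoint e f →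
      Hyp (av H f) 1 → Hyp (av H e) 1 →
      (H.filter (fun g => ¬ Disjoint g e ∧ ¬ Disjoint g f)).card ≤ 36)
    {F : Finset (Finset V)} {s D : ℕ} (h3 : ∀ e ∈ F, e.card = 3)
    (hD : ∀ T : Finset V, 3 * s ≤ D + T.card + 3 * nu (av F T)) {T : Finset V}
    (hT : D + T.card + 3 * nu (av F T) ≤ 3 * s) :
    (av F T).card ≤ (3 * nu (av F T) + 2).choose 3 := by
  classical
  obtain ⟨N, hN, hm, hc⟩ := exists_nu (av F T)
  rw [← hc]
  refine local_global EL B36 h3 hD hN hm (by rw [hc]; exact hT) fun S hS _ => ?_
  obtain ⟨Q, hQ, hmQ, hcQ⟩ := exists_nu (av (av F T) (VS (N \ S)))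
  have hd : Disjoint Q (N \ S) := by
    rw [Finset.disjoint_left]
    intro e he he'
    have h1 := (mem_av.1 (hQ he)).2
    have hne : e.Nonempty := by
      rw [← Finset.card_pos, h3 e (av_subset _ _ (hN (sdiff_subset he')))]
      norm_num
    obtain ⟨v, hv⟩ := hne
    exact Finset.disjoint_left.1 h1 hv (mem_VS.2 ⟨e, he', hv⟩)
  have hmu : IsMatching (Q ∪ (N \ S)) := by
    intro e he f hf hef
    rw [mem_union] at he hf
    rcases he with he | he <;> rcases hf with hf | hf
    · exact hmQ e he f hf hef
    · exact ((mem_av.1 (hQ he)).2).mono_right (subset_VS hf)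
    · exact (((mem_av.1 (hQ hf)).2).mono_right (subset_VS he)).symm
    · exact hm e (sdiff_subset he) f (sdiff_subset hf) hef
  have h1 := card_le_nu (F := av F T)
    (union_subset (hQ.trans (av_subset _ _)) (sdiff_subset.trans hN)) hmu
  rw [card_union_of_disjoint hd, card_sdiff_of_subset hS, hcQ, ← hc] at h1
  have h2 := card_le_card hS
  omega

/-- The case `D = 0`. -/
theorem card_of_zero (EL : ∀ H : Finset (Finset V), Hyp H 1 → H.card ≤ 10)
    (B36 : ∀ H : Finset (Finset V), Hyp H 2 → ∀ e ∈ H, ∀ f ∈ H, Disjoint e f →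
      Hyp (av H f) 1 → Hyp (av H e) 1 →
      (H.filter (fun g => ¬ Disjoint g e ∧ ¬ Disjoint g f)).card ≤ 36)
    {F : Finset (Finset V)} {s : ℕ} (h : Hyp F s)
    (hD : ∀ T : Finset V, 3 * s ≤ T.card + 3 * nu (av F T)) :
    F.card ≤ (3 * s + 2).choose 3 := by
  have h1 := card_av_opt EL B36 (D := 0) (T := ∅) h.three (fun T => by simpa using hD T)
    (by
      rw [av_empty]
      simpa using h.nu_le)
  rw [av_empty] at h1
  refine h1.trans (Nat.choose_le_choose 3 ?_)
  have := h.nu_le
  omega

end Res12
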