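import Pool.Agent.Helper65.Res.P1

/-!
# Route A: sums over blocks and pairs of blocks whose terms depend on classes only
-/

namespace RouteA

open Finset Res12 Helper9.Res

set_option linter.unusedSectionVars false

section generic
variable {α ι : Type} [DecidableEq α] [Fintype ι] [DecidableEq ι]

/-- the number of elements of a class -/
def ncl (P : Finset α) (cl : α → ι) (i : ι) : ℕ := (P.filter (fun e => cl e = i)).card

theorem sum_ncl (P : Finset α) (cl : α → ι) : ∑ i, ncl P cl i = P.card := by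
  unfold ncl
  exact (Finset.card_eq_sum_card_fiberwise (f := cl) (t := Finset.univ)
    (fun _ _ => Finset.mem_coe.2 (Finset.mem_univ _))).symm

theorem sum_class (P : Finset α) (cl : α → ι) (g : ι → ℤ) :
    ∑ e ∈ P, g (cl e) = ∑ i, (ncl P cl i : ℤ) * g i := by
  rw [← Finset.sum_fiberwise P cl (fun e => g (cl e))]
  refine Finset.sum_congr rfl fun i _ => ?_
  rw [Finset.sum_congr rfl (g := fun _ => g i) (by
    intro e he
    rw [mem_filter] at he
    rw [he.2])]
  rw [Finset.sum_const, nsmul_eq_mul]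
  rfl

theorem sum_pair_class (P : Finset α) (cl : α → ι) (A : ι → ι → ℤ) :
    ∑ e ∈ P, ∑ f ∈ P.erase e, A (cl e) (cl f) =
      ∑ i, ∑ k, (ncl P cl i : ℤ) * (ncl P cl k) * A i k - ∑ i, (ncl P cl i : ℤ) * A i i := by
  have h1 : ∀ e ∈ P, ∑ f ∈ P.erase e, A (cl e) (cl f) =
      ∑ k, (ncl P cl k : ℤ) * A (cl e) k - A (cl e) (cl e) := by
    intro e he
    rw [← sum_class P cl (A (cl e)), ← Finset.sum_erase_add P _ he]
    ring
  rw [Finset.sum_congr rfl h1, Finset.sum_sub_distrib,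
    sum_class P cl (fun i => ∑ k, (ncl P cl k : ℤ) * A i k), sum_class P cl (fun i => A i i)]
  congr 1
  refine Finset.sum_congr rfl fun i _ => ?_
  rw [Finset.mul_sum]
  exact Finset.sum_congr rfl fun k _ => by ring

end generic

variable {V : Type} [Fintype V] [DecidableEq V]

/-- the class of a block: its type, plus two if it is flagged (only types two and three can be
flagged) -/
def bcl (F P : Finset (Finset V)) (x y : V) (e : Finset V) : Fin 6 :=
  if ty F x y e = 0 then 0 else if ty F x y e = 1 then 1 else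
    if ty F x y e = 2 then (if ∃ v ∈ e, (Gp F P x y v).Nonempty then 4 else 2) else
      (if ∃ v ∈ e, (Gp F P x y v).Nonempty then 5 else 3)

section
variable {F P : Finset (Finset V)} {s j : ℕ} {x y : V} {e : Finset V}

theorem ty_le (h3 : ∀ g ∈ P, g.card = 3) (he : e ∈ P) : ty F x y e ≤ 3 := by
  unfold ty
  exact (card_le_card sdiff_subset).trans (h3 e he).le

/-- the type of a class -/
def tcl : Fin 6 → ℕ := ![0, 1, 2, 3, 2, 3]

theorem tcl_bcl (h3 : ∀ g ∈ P, g.card = 3) (he : e ∈ P) :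
    tcl (bcl F P x y e) = ty F x y e := by
  have h1 := ty_le (F := F) (x := x) (y := y) h3 he
  unfold bcl
  split_ifs <;> simp [tcl] <;> omega

/-- the six numbers of blocks -/
theorem SetUp.counts (h : SetUp F s j P x y) :
    ∃ n : Fin 6 → ℕ, (∀ i, n i = ncl P (bcl F P x y) i) ∧
      n 0 + n 1 + n 2 + n 3 + n 4 + n 5 = s ∧ n 1 + 2 * n 2 + 3 * n 3 + 2 * n 4 + 3 * n 5 = j := by
  refine ⟨ncl P (bcl F P x y), fun _ => rfl, ?_, ?_⟩
  · have h1 := sum_ncl P (bcl F P x y)
    rw [Fin.sum_univ_six, h.card] at h1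
    exact h1
  · have h1 := sum_class P (bcl F P x y) (fun i => (tcl i : ℤ))
    have h2 : ∑ e ∈ P, ((tcl (bcl F P x y e) : ℕ) : ℤ) = (j : ℤ) := by
      rw [← h.sum_ty]
      push_cast
      exact Finset.sum_congr rfl fun e he => by rw [tcl_bcl h.threeP he]
    rw [h2, Fin.sum_univ_six] at h1
    simp only [tcl, Matrix.cons_val_zero, Matrix.cons_val_one, Matrix.cons_val] at h1
    push_cast at h1
    zify
    linarith

/-- **the frame with bounds by classes** -/
theorem SetUp.frame_class (h : SetUp F s j P x y) (A : Fin 6 → Fin 6 → ℤ) (B : Fin 6 → ℤ)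
    (hA : ∀ e ∈ P, ∀ f ∈ P, e ≠ f → ∑ q ∈ e, ∑ r ∈ f, tau F P e f q r ≤
      A (bcl F P x y e) (bcl F P x y f))
    (hB : ∀ e ∈ P, 4 * ∑ p ∈ e.powersetCard 2, ((Helper28.Res.dg F (VS P) p : ℤ) - 2) - 6 * j -
        6 * ty F x y e + 6 * ∑ v ∈ e, (((Gp F P x y v).card : ℤ) + (lb F P x y x v).card +
          (lb F P x y y v).card) ≤ B (bcl F P x y e))
    (hsum : ∀ n : Fin 6 → ℕ, n 0 + n 1 + n 2 + n 3 + n 4 + n 5 = s →
      n 1 + 2 * n 2 + 3 * n 3 + 2 * n 4 + 3 * n 5 = j →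
      ∑ i, ∑ k, (n i : ℤ) * (n k) * A i k - ∑ i, (n i : ℤ) * A i i +
        ∑ i, (n i : ℤ) * B i ≤ 0) :
    F.card ≤ (3 * s + 2).choose 3 := by
  refine h.frame_le (fun e f => A (bcl F P x y e) (bcl F P x y f)) (fun e => B (bcl F P x y e))
    hA hB ?_
  obtain ⟨n, hn, h1, h2⟩ := h.counts
  have h3 := hsum n h1 h2
  simp only [hn] at h3
  rw [sum_pair_class P (bcl F P x y) A, sum_class P (bcl F P x y) B]
  exact h3

/-- **the frame with bounds by classes**, in terms of the sum over the six perfect matchings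
(`C` bounds `Σ T3`, twice the sum of `tau`) -/
theorem SetUp.frame_six (h : SetUp F s j P x y) (C : Fin 6 → Fin 6 → ℤ) (B : Fin 6 → ℤ)
    (hC : ∀ e f : Finset V, ∀ u v t a b c : V, Pm P e f u v t a b c →
      Helper9.Res.T3 F P e f u v t a b c + Helper9.Res.T3 F P e f u v t a c b +
      Helper9.Res.T3 F P e f u v t b a c + Helper9.Res.T3 F P e f u v t b c a +
      Helper9.Res.T3 F P e f u v t c a b + Helper9.Res.T3 F P e f u v t c b a ≤
        C (bcl F P x y e) (bcl F P x y f))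
    (hB : ∀ e ∈ P, 4 * ∑ p ∈ e.powersetCard 2, ((Helper28.Res.dg F (VS P) p : ℤ) - 2) - 6 * j -
        6 * ty F x y e + 6 * ∑ v ∈ e, (((Gp F P x y v).card : ℤ) + (lb F P x y x v).card +
          (lb F P x y y v).card) ≤ B (bcl F P x y e))
    (hsum : ∀ n : Fin 6 → ℕ, n 0 + n 1 + n 2 + n 3 + n 4 + n 5 = s →
      n 1 + 2 * n 2 + 3 * n 3 + 2 * n 4 + 3 * n 5 = j →
      ∑ i, ∑ k, (n i : ℤ) * (n k) * C i k - ∑ i, (n i : ℤ) * C i i +
        2 * ∑ i, (n i : ℤ) * B i ≤ 0) :
    F.card ≤ (3 * s + 2).choose 3 := by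
  obtain ⟨n, hn, h1, h2⟩ := h.counts
  have h3 := hsum n h1 h2
  simp only [hn] at h3
  rw [← sum_pair_class P (bcl F P x y) C, ← sum_class P (bcl F P x y) B] at h3
  have h4 := h.frame_tau
  have h5 : 2 * ∑ e ∈ P, ∑ f ∈ P.erase e, ∑ a ∈ e, ∑ b ∈ f, tau F P e f a b ≤
      ∑ e ∈ P, ∑ f ∈ P.erase e, C (bcl F P x y e) (bcl F P x y f) := by
    rw [Finset.mul_sum]
    refine Finset.sum_le_sum fun e he => ?_
    rw [Finset.mul_sum]
    refine Finset.sum_le_sum fun f hf => ?_
    rw [mem_erase] at hf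
    obtain ⟨u, v, t, a, b, c, p⟩ := exists_pm h.threeP he hf.2 (Ne.symm hf.1)
    rw [h.two_sum_T3 p]
    exact hC e f u v t a b c p
  have h6 : ∑ e ∈ P, (4 * ∑ p ∈ e.powersetCard 2, ((Helper28.Res.dg F (VS P) p : ℤ) - 2) -
      6 * j - 6 * ty F x y e + 6 * ∑ v ∈ e, (((Gp F P x y v).card : ℤ) + (lb F P x y x v).card +
          (lb F P x y y v).card)) ≤ ∑ e ∈ P, B (bcl F P x y e) :=
    Finset.sum_le_sum fun e he => hB e he
  have h7 : (F.card : ℤ) ≤ ((3 * s + 2).choose 3 : ℤ) := by linarith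
  exact_mod_cast h7

end

end RouteA
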