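import Pool.Agent.Helper65.Res.A2
import Pool.Agent.Helper54.Res.GPair
import Pool.Agent.Helper12.Res.GBlock
import Pool.Agent.Helper47.Res.LA7

/-!
# Route A, the case `2 ≤ j`: what remains are the pair bound, the block bound and the final
arithmetic
-/

namespace RouteA

open Finset Res12 Helper9.Res Helper54.Res

set_option linter.unusedSectionVars false

variable {V : Type} [Fintype V] [DecidableEq V]

section
variable {F P : Finset (Finset V)} {s j : ℕ} {x y : V}

theorem SetUp.leaf_hL (h : SetUp F s j P x y) (hs : 3 ≤ s) {e f : Finset V}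
    {u v t a b c : V} (p : Pm P e f u v t a b c) (h0 : ty F x y f = 0) (hf : Flg F P x y e) :
    six F P e f u v t a b c ≤ 6 * cFL s j := by
  obtain ⟨z, hz, hg⟩ := hf
  obtain ⟨p1, p2, p3, p4, p5, p6⟩ := pm_six p
  have e1 := flag_zero h hs h0 hz hg p1
  have e2 := flag_zero h hs h0 hz hg p2
  have e3 := flag_zero h hs h0 hz hg p3
  have e4 := flag_zero h hs h0 hz hg p4
  have e5 := flag_zero h hs h0 hz hg p5
  have e6 := flag_zero h hs h0 hz hg p6
  have e7 : FL s j = cFL s j := rfl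
  rw [e7] at e1 e2 e3 e4 e5 e6
  unfold six
  linarith

theorem SetUp.leaf_hG (h : SetUp F s j P x y) (hs : 3 ≤ s) {e : Finset V} (he : e ∈ P) :
    ∑ v ∈ e, ((Gp F P x y v).card : ℤ) ≤ cG s (ty F x y e) := by
  have ht := RouteA.ty_le (F := F) (x := x) (y := y) h.threeP he
  have h0 : ∑ v ∈ e, ((Gp F P x y v).card : ℤ) = ((∑ v ∈ e, (Gp F P x y v).card : ℕ) : ℤ) := by
    push_cast
    rfl
  rw [h0]
  unfold cG
  by_cases h1 : ty F x y e ≤ 1
  · rw [h.sum_Gp_zero he h1, if_neg (by omega), if_neg (by omega)]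
    simp
  · by_cases h2 : ty F x y e = 2
    · have h3 := h.sum_Gp_two he h2
      rw [if_pos h2]
      have h4 : ((∑ v ∈ e, (Gp F P x y v).card : ℕ) : ℤ) ≤ ((s * s : ℕ) : ℤ) := by
        exact_mod_cast h3
      push_cast at h4
      push_cast
      nlinarith [h4]
    · have h3 := h.sum_Gp_le hs he
      rw [if_neg h2, if_pos (by omega)]
      have h4 : ((∑ v ∈ e, (Gp F P x y v).card : ℕ) : ℤ) ≤ (((s + 1) * (s + 1) : ℕ) : ℤ) := by
        exact_mod_cast h3
      push_cast at h4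
      push_cast
      nlinarith [h4]

/-- the case `2 ≤ j` from the three remaining leaves -/
theorem SetUp.card_le_of_three (h : SetUp F s j P x y) (hs : 3 ≤ s)
    (hP : ∀ e f : Finset V, ∀ u v t a b c : V, Pm P e f u v t a b c →
      six F P e f u v t a b c ≤
        (6 - n2 (ty F x y e) (ty F x y f)) * cAB s j + n2 (ty F x y e) (ty F x y f) * cC s j)
    (hB : ∀ e ∈ P, 4 * ∑ p ∈ e.powersetCard 2, ((Helper28.Res.dg F (VS P) p : ℤ) - 2) +
      6 * ∑ v ∈ e, (((lb F P x y x v).card : ℤ) + (lb F P x y y v).card) - 6 * ty F x y e ≤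
        cB s (ty F x y e))
    (hfin : ∀ a0 a1 a2 a3 g2 g3 : ℤ, 0 ≤ a0 → 0 ≤ a1 → 0 ≤ g2 → g2 ≤ a2 → 0 ≤ g3 → g3 ≤ a3 →
      a0 + a1 + a2 + a3 = s → a1 + 2 * a2 + 3 * a3 = j → disp s j a0 a1 a2 a3 g2 g3 ≤ 0) :
    F.card ≤ (3 * s + 2).choose 3 :=
  h.card_le_list hP (fun _ _ _ _ _ _ _ _ p h0 hf => h.leaf_hL hs p h0 hf)
    (fun _ he _ hv hg => h.two_le_ty_of_gp he hv hg) hB (fun _ he => h.leaf_hG hs he) hfin

end

end RouteA
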