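import Pool.Agent.Helper65.Res.J2
import Pool.Agent.Helper31.Res.HP
import Pool.Agent.Helper68.Res.HB

/-!
# Route A, the case `2 ≤ j`: only the final arithmetic is left
-/

namespace RouteA

open Finset Res12 Helper9.Res

set_option linter.unusedSectionVars false

variable {V : Type} [Fintype V] [DecidableEq V]

/-- the case `2 ≤ j` from the final arithmetic -/
theorem SetUp.card_le_of_fin {F P : Finset (Finset V)} {s j : ℕ} {x y : V}
    (h : SetUp F s j P x y) (hs : 3 ≤ s) (hj : 2 ≤ j)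
    (hfin : ∀ a0 a1 a2 a3 g2 g3 : ℤ, 0 ≤ a0 → 0 ≤ a1 → 0 ≤ g2 → g2 ≤ a2 → 0 ≤ g3 → g3 ≤ a3 →
      a0 + a1 + a2 + a3 = s → a1 + 2 * a2 + 3 * a3 = j → disp s j a0 a1 a2 a3 g2 g3 ≤ 0) :
    F.card ≤ (3 * s + 2).choose 3 :=
  h.card_le_of_three hs (fun _ _ _ _ _ _ _ _ p => Helper31.Res.six_le h hs hj p)
    (h.leaf_hB hs) hfin

end RouteA
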