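import Pool.Agent.Helper65.Res.LA2
import Pool.Agent.Helper54.Res.Cell

/-!
# Route A: the own pairs are paid by the missing triples of two blocks
-/

namespace RouteA

open Finset Res12

set_option linter.unusedSectionVars false

variable {V : Type} [Fintype V] [DecidableEq V]

section
variable {F P S : Finset (Finset V)} {s j : ℕ} {x y a b : V} {e f : Finset V}

/-- the missing triples of `VS P` which meet two blocks -/
def T2 (F P : Finset (Finset V)) : Finset (Finset V) :=
  ((VS P).powersetCard 3).filter (fun t => t ∉ F ∧ (bl P t).card = 2)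

theorem card_T2 (hm : IsMatching P) :
    (T2 F P).card = ∑ S ∈ P.powersetCard 2, (mis F S).card := by
  classical
  have h1 : (T2 F P).card =
      ∑ S ∈ P.powersetCard 2, ((T2 F P).filter (fun t => bl P t = S)).card := by
    refine Finset.card_eq_sum_card_fiberwise (f := bl P) ?_
    intro t ht
    have ht' := Finset.mem_coe.1 ht
    unfold T2 at ht'
    rw [mem_filter] at ht'
    exact Finset.mem_coe.2 (mem_powersetCard.2 ⟨bl_subset P t, ht'.2.2⟩)
  rw [h1]
  refine Finset.sum_congr rfl fun S hS => ?_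
  rw [mem_powersetCard] at hS
  rw [mis_eq hm hS.1]
  congr 1
  ext t
  unfold T2
  rw [mem_filter, mem_filter, mem_filter, mem_tr, mem_powersetCard]
  constructor
  · rintro ⟨⟨⟨a1, a2⟩, a3, -⟩, a4⟩
    exact ⟨⟨a1, a2, a4⟩, a3⟩
  · rintro ⟨⟨a1, a2, a4⟩, a3⟩
    refine ⟨⟨⟨a1, a2⟩, a3, ?_⟩, a4⟩
    rw [a4]
    exact hS.2

/-- the missing triples through an own pair -/
theorem card_own (hm : IsMatching P) (he : e ∈ P) {p : Finset V}
    (hp : p ∈ e.powersetCard 2) :
    ((VS P \ e).filter (fun z => insert z p ∉ F)).card =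
      ((T2 F P).filter (fun t => p ⊆ t)).card := by
  classical
  rw [mem_powersetCard] at hp
  refine Finset.card_bij (fun z _ => insert z p) ?_ ?_ ?_
  · intro z hz
    rw [mem_filter, mem_sdiff] at hz
    obtain ⟨⟨hz1, hz2⟩, hz3⟩ := hz
    have hzp : z ∉ p := fun h => hz2 (hp.1 h)
    rw [mem_filter]
    refine ⟨?_, subset_insert _ _⟩
    unfold T2
    rw [mem_filter, mem_powersetCard]
    have hsub : insert z p ⊆ VS P := by
      intro w hw
      rw [mem_insert] at hw
      rcases hw with rfl | hw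
      · exact hz1
      · exact subset_VS he (hp.1 hw)
    refine ⟨⟨hsub, by rw [card_insert_of_notMem hzp, hp.2]⟩, hz3, ?_⟩
    obtain ⟨g, hg, hzg⟩ := mem_VS.1 hz1
    have hge : g ≠ e := by
      rintro rfl
      exact hz2 hzg
    obtain ⟨q, hq⟩ : p.Nonempty := by
      rw [← Finset.card_pos, hp.2]
      norm_num
    have h1 : bl P (insert z p) = {e, g} := by
      apply Finset.Subset.antisymm
      · have hS : ({e, g} : Finset (Finset V)) ⊆ P := by
          intro c hc
          rw [mem_insert, mem_singleton] at hc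
          rcases hc with rfl | rfl
          · exact he
          · exact hg
        refine bl_sub hm hS ?_
        intro w hw
        rw [mem_insert] at hw
        rcases hw with rfl | hw
        · exact mem_VS.2 ⟨g, by simp, hzg⟩
        · exact mem_VS.2 ⟨e, by simp, hp.1 hw⟩
      · intro c hc
        rw [mem_insert, mem_singleton] at hc
        rcases hc with rfl | rfl
        · exact mem_bl.2 ⟨he, Finset.not_disjoint_iff.2 ⟨q, hp.1 hq, mem_insert_of_mem hq⟩⟩
        · exact mem_bl.2 ⟨hg, Finset.not_disjoint_iff.2 ⟨z, hzg, mem_insert_self _ _⟩⟩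
    rw [h1, card_pair (Ne.symm hge)]
  · intro z hz z' hz' h
    rw [mem_filter, mem_sdiff] at hz hz'
    have h' : insert z p = insert z' p := h
    have h1 : z ∈ insert z' p := by
      rw [← h']
      exact mem_insert_self _ _
    rw [mem_insert] at h1
    rcases h1 with h1 | h1
    · exact h1
    · exact absurd (hp.1 h1) hz.1.2
  · intro t ht
    rw [mem_filter] at ht
    obtain ⟨ht, hpt⟩ := ht
    unfold T2 at ht
    rw [mem_filter, mem_powersetCard] at ht
    obtain ⟨⟨h1, h2⟩, h4, h5⟩ := ht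
    have h6 : (t \ p).card = 1 := by
      rw [card_sdiff_of_subset hpt, h2, hp.2]
    obtain ⟨z, hz⟩ := Finset.card_eq_one.1 h6
    have hzt : z ∈ t \ p := by rw [hz]; exact mem_singleton_self z
    rw [mem_sdiff] at hzt
    have h7 : insert z p = t := by
      rw [Finset.insert_eq, ← hz]
      exact Finset.sdiff_union_of_subset hpt
    refine ⟨z, ?_, h7⟩
    rw [mem_filter, mem_sdiff, h7]
    refine ⟨⟨h1 hzt.1, ?_⟩, h4⟩
    intro hze
    have h8 : bl P t ⊆ {e} := by
      refine bl_sub hm (by simpa using he) ?_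
      intro w hw
      refine mem_VS.2 ⟨e, by simp, ?_⟩
      rw [← h7, mem_insert] at hw
      rcases hw with rfl | hw
      · exact hze
      · exact hp.1 hw
    have h9 := card_le_card h8
    rw [h5, card_singleton] at h9
    omega

/-- a triple meeting two blocks contains exactly one own pair -/
theorem one_own (hm : IsMatching P) {t : Finset V} (h1 : t ⊆ VS P) (h2 : t.card = 3)
    (h3 : (bl P t).card = 2) : ∑ e ∈ P, ((e ∩ t).powersetCard 2).card = 1 := by
  classical
  obtain ⟨e, f, hef, hbl⟩ := Finset.card_eq_two.1 h3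
  have he : e ∈ bl P t := by rw [hbl]; simp
  have hf : f ∈ bl P t := by rw [hbl]; simp
  have hd := hm e (mem_bl.1 he).1 f (mem_bl.1 hf).1 hef
  have hz : ∑ c ∈ P, ((c ∩ t).powersetCard 2).card = ∑ c ∈ bl P t, ((c ∩ t).powersetCard 2).card := by
    symm
    apply Finset.sum_subset (bl_subset P t)
    intro c hc hc'
    have : Disjoint c t := by
      by_contra hcon
      exact hc' (mem_bl.2 ⟨hc, hcon⟩)
    rw [Finset.disjoint_iff_inter_eq_empty.1 this]
    rfl
  rw [hz, hbl, Finset.sum_pair hef, card_powersetCard, card_powersetCard]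
  have ha : 1 ≤ (e ∩ t).card := by
    rw [Nat.one_le_iff_ne_zero, ← Nat.pos_iff_ne_zero, Finset.card_pos,
      ← Finset.not_disjoint_iff_nonempty_inter]
    exact (mem_bl.1 he).2
  have hb : 1 ≤ (f ∩ t).card := by
    rw [Nat.one_le_iff_ne_zero, ← Nat.pos_iff_ne_zero, Finset.card_pos,
      ← Finset.not_disjoint_iff_nonempty_inter]
    exact (mem_bl.1 hf).2
  have hs : (e ∩ t).card + (f ∩ t).card = 3 := by
    rw [← h2, ← card_union_of_disjoint (hd.mono inter_subset_left inter_subset_left)]
    congr 1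
    ext z
    rw [mem_union, mem_inter, mem_inter]
    constructor
    · rintro (h | h)
      · exact h.2
      · exact h.2
    · intro hz
      have h4 := sub_bl h1 hz
      rw [hbl] at h4
      obtain ⟨c, hc, hzc⟩ := mem_VS.1 h4
      rw [mem_insert, mem_singleton] at hc
      rcases hc with rfl | rfl
      · exact Or.inl ⟨hzc, hz⟩
      · exact Or.inr ⟨hzc, hz⟩
  have hcase : ((e ∩ t).card = 1 ∧ (f ∩ t).card = 2) ∨ ((e ∩ t).card = 2 ∧ (f ∩ t).card = 1) := by
    omega
  rcases hcase with ⟨h5, h6⟩ | ⟨h5, h6⟩ <;> rw [h5, h6] <;> decide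

/-- every missing triple of two blocks contains exactly one own pair -/
theorem sum_own (hm : IsMatching P) :
    ∑ e ∈ P, ∑ p ∈ e.powersetCard 2, ((VS P \ e).filter (fun z => insert z p ∉ F)).card =
      ∑ S ∈ P.powersetCard 2, (mis F S).card := by
  classical
  rw [← card_T2 hm]
  have h1 : ∀ e ∈ P, ∑ p ∈ e.powersetCard 2,
      ((VS P \ e).filter (fun z => insert z p ∉ F)).card =
      ∑ t ∈ T2 F P, ((e ∩ t).powersetCard 2).card := by
    intro e he
    rw [Finset.sum_congr rfl fun p hp => card_own hm he hp]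
    simp only [Finset.card_filter]
    rw [Finset.sum_comm]
    refine Finset.sum_congr rfl fun t _ => ?_
    rw [← Finset.card_filter]
    congr 1
    ext p
    rw [mem_filter, mem_powersetCard, mem_powersetCard, subset_inter_iff]
    tauto
  rw [Finset.sum_congr rfl h1, Finset.sum_comm, Finset.card_eq_sum_ones (T2 F P)]
  refine Finset.sum_congr rfl fun t ht => ?_
  unfold T2 at ht
  rw [mem_filter, mem_powersetCard] at ht
  exact one_own hm ht.1.1 ht.1.2 ht.2.2

theorem dg_pair (h3 : ∀ e ∈ F, e.card = 3) (hab : a ≠ b) (ha : a ∈ VS P) (hb : b ∈ VS P) :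
    Helper28.Res.dg F (VS P) {a, b} = dW F P a b := by
  rw [dg_eq_ex, dW_pair]
  refine ex_two h3 ?_ (card_pair hab)
  intro z hz
  rw [mem_insert, mem_singleton] at hz
  rcases hz with rfl | rfl
  · exact ha
  · exact hb

/-- The own pairs are paid by the missing triples of two blocks:
`3 s j + ∑ own λ ≤ ∑ mis` over the pairs of blocks. -/
theorem SetUp.own_paid (h : SetUp F s j P x y) :
    ∑ e ∈ P, ∑ p ∈ e.powersetCard 2, ((j : ℤ) + ((Helper28.Res.dg F (VS P) p : ℤ) - 2)) ≤
      ∑ S ∈ P.powersetCard 2, ((mis F S).card : ℤ) := by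
  classical
  have h1 := sum_own (F := F) h.mat
  rw [← Nat.cast_sum, ← h1]
  push_cast
  refine Finset.sum_le_sum fun e he => Finset.sum_le_sum fun p hp => ?_
  rw [mem_powersetCard] at hp
  obtain ⟨a, b, hab, rfl⟩ := Finset.card_eq_two.1 hp.2
  have ha : a ∈ e := hp.1 (by simp)
  have hb : b ∈ e := hp.1 (by simp)
  have h2 := Helper54.Res.codeg_own h he hab ha hb
  rw [dg_pair h.three hab (subset_VS he ha) (subset_VS he hb)]
  unfold lam at h2
  refine h2.trans ?_
  apply le_of_eq
  congr 1
  congr 1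
  ext z
  rw [mem_filter, mem_filter]
  have h3 : ({a, b, z} : Finset V) = insert z {a, b} := by
    ext w
    simp only [mem_insert, mem_singleton]
    tauto
  rw [h3]

/-- The frame inequality of the pairwise accounting, multiplied by six. The points of a block
contribute `dg {p}`, its own pairs two thirds of `λ` and `- j / 3`. -/
theorem SetUp.frame (h : SetUp F s j P x y) :
    6 * ((F.card : ℤ) - ((3 * s + 2).choose 3 : ℤ)) ≤
      ∑ e ∈ P, ∑ f ∈ P.erase e, (3 * ∑ a ∈ e, ∑ b ∈ f, lam F P a b -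
        ∑ a ∈ e, ∑ b ∈ f, ((m3 F P e f a b).card : ℤ) - 2 * (mis F {e, f}).card) +
      ∑ e ∈ P, (4 * ∑ p ∈ e.powersetCard 2, ((Helper28.Res.dg F (VS P) p : ℤ) - 2) - 6 * j +
        6 * ∑ p ∈ e.powersetCard 1, (Helper28.Res.dg F (VS P) p : ℤ) - 18) := by
  classical
  have e1 := h.exact
  have e2 := sum_two P (fun S => (Res83.A F P S : ℤ) - 36)
  have e3 : ∑ e ∈ P, ∑ f ∈ P.erase e, ((Res83.A F P {e, f} : ℤ) - 36) =
      ∑ e ∈ P, ∑ f ∈ P.erase e, (∑ a ∈ e, ∑ b ∈ f, lam F P a b - (mis F {e, f}).card) := by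
    refine Finset.sum_congr rfl fun e he => Finset.sum_congr rfl fun f hf => ?_
    rw [mem_erase] at hf
    exact h.A_pair he hf.2 (Ne.symm hf.1)
  have e4 := h.sum_m3
  have e5 := h.own_paid
  have e6 := sum_two P (fun S => ((mis F S).card : ℤ))
  have e7 : ∑ e ∈ P, ((Res83.A F P {e} : ℤ) - 10) = ∑ e ∈ P,
      (∑ p ∈ e.powersetCard 2, ((Helper28.Res.dg F (VS P) p : ℤ) - 2) +
      ∑ p ∈ e.powersetCard 1, (Helper28.Res.dg F (VS P) p : ℤ) - 3) :=
    Finset.sum_congr rfl fun e he => h.A_block he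
  have e8 : ∀ e ∈ P, ∑ p ∈ e.powersetCard 2, ((j : ℤ) +
      ((Helper28.Res.dg F (VS P) p : ℤ) - 2)) = 3 * j +
      ∑ p ∈ e.powersetCard 2, ((Helper28.Res.dg F (VS P) p : ℤ) - 2) := by
    intro e he
    rw [Finset.sum_add_distrib, Finset.sum_const, card_powersetCard, h.threeP e he]
    norm_num [Nat.choose]
  rw [Finset.sum_congr rfl e8] at e5
  zify at e4
  simp only [Finset.sum_add_distrib, Finset.sum_sub_distrib, ← Finset.mul_sum] at *
  have e9 : ∑ _e ∈ P, (18 : ℤ) = 6 * ∑ _e ∈ P, (3 : ℤ) := by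
    rw [Finset.mul_sum]
    norm_num
  linarith

end

end RouteA
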