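import Pool.Agent.Helper65.Res.Frame
import Pool.Agent.Helper9.Res.Cls

/-!
# Route A: the pair bracket as the sum of `T3` over the six perfect matchings
-/

namespace RouteA

open Finset Res12 Helper9.Res

set_option linter.unusedSectionVars false

variable {V : Type} [Fintype V] [DecidableEq V]

section
variable {F P : Finset (Finset V)} {s j : ℕ} {x y : V} {e f : Finset V}
  {u v t a b c : V}

/-- twice the sum of `tau` over the cells is the sum of `T3` over the six perfect matchings -/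
theorem SetUp.two_sum_T3 (h : SetUp F s j P x y) (p : Pm P e f u v t a b c) :
    2 * ∑ q ∈ e, ∑ r ∈ f, tau F P e f q r =
      Helper9.Res.T3 F P e f u v t a b c + Helper9.Res.T3 F P e f u v t a c b + Helper9.Res.T3 F P e f u v t b a c +
      Helper9.Res.T3 F P e f u v t b c a + Helper9.Res.T3 F P e f u v t c a b + Helper9.Res.T3 F P e f u v t c b a := by
  rw [two_sum (tau F P e f) p h.threeP]
  rfl

/-- **[P1]** twice the pair bracket is the sum of `T3` over the six perfect matchings -/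
theorem SetUp.sum_T3 (h : SetUp F s j P x y) (p : Pm P e f u v t a b c) :
    2 * (3 * ∑ q ∈ e, ∑ r ∈ f, lam F P q r - ∑ q ∈ e, ∑ r ∈ f, ((m3 F P e f q r).card : ℤ) -
      2 * (mis F {e, f}).card) =
      Helper9.Res.T3 F P e f u v t a b c + Helper9.Res.T3 F P e f u v t a c b + Helper9.Res.T3 F P e f u v t b a c +
      Helper9.Res.T3 F P e f u v t b c a + Helper9.Res.T3 F P e f u v t c a b + Helper9.Res.T3 F P e f u v t c b a := by
  rw [← h.sum_tau p.he p.hf p.hef, h.two_sum_T3 p]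

/-- the six perfect matchings in coordinates -/
theorem pm_six (p : Pm P e f u v t a b c) :
    Pm P e f u v t a b c ∧ Pm P e f u v t a c b ∧ Pm P e f u v t b a c ∧ Pm P e f u v t b c a ∧
      Pm P e f u v t c a b ∧ Pm P e f u v t c b a :=
  ⟨p, p.cols, ⟨p.he, p.hf, p.hef, p.hu, p.hv, p.ht, p.hb, p.ha, p.hc, p.huv, p.hut,
    p.hvt, p.hab.symm, p.hbc, p.hac⟩,
   ⟨p.he, p.hf, p.hef, p.hu, p.hv, p.ht, p.hb, p.hc, p.ha, p.huv, p.hut,
    p.hvt, p.hbc, p.hab.symm, p.hac.symm⟩,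
   ⟨p.he, p.hf, p.hef, p.hu, p.hv, p.ht, p.hc, p.ha, p.hb, p.huv, p.hut,
    p.hvt, p.hac.symm, p.hbc.symm, p.hab⟩,
   ⟨p.he, p.hf, p.hef, p.hu, p.hv, p.ht, p.hc, p.hb, p.ha, p.huv, p.hut,
    p.hvt, p.hbc.symm, p.hac.symm, p.hab.symm⟩⟩

/-- a bound for every perfect matching bounds the pair -/
theorem SetUp.sum_tau_le (h : SetUp F s j P x y) (he : e ∈ P) (hf : f ∈ P) (hef : e ≠ f)
    (B : ℤ) (hB : ∀ u v t a b c, Pm P e f u v t a b c → Helper9.Res.T3 F P e f u v t a b c ≤ B) :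
    ∑ q ∈ e, ∑ r ∈ f, tau F P e f q r ≤ 3 * B :=
  sum_cells_le (tau F P e f) B h.threeP he hf hef hB

/-- **the frame with bounds**: a bound `A e f` for the cells of every pair of blocks and a bound
`B e` for every block bound the family -/
theorem SetUp.frame_le (h : SetUp F s j P x y) (A : Finset V → Finset V → ℤ)
    (B : Finset V → ℤ)
    (hA : ∀ e ∈ P, ∀ f ∈ P, e ≠ f → ∑ q ∈ e, ∑ r ∈ f, tau F P e f q r ≤ A e f)
    (hB : ∀ e ∈ P, 4 * ∑ p ∈ e.powersetCard 2, ((Helper28.Res.dg F (VS P) p : ℤ) - 2) - 6 * j -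
        6 * ty F x y e + 6 * ∑ v ∈ e, (((Gp F P x y v).card : ℤ) + (lb F P x y x v).card +
          (lb F P x y y v).card) ≤ B e)
    (hsum : ∑ e ∈ P, ∑ f ∈ P.erase e, A e f + ∑ e ∈ P, B e ≤ 0) :
    F.card ≤ (3 * s + 2).choose 3 := by
  have h1 := h.frame_tau
  have h2 : ∑ e ∈ P, ∑ f ∈ P.erase e, ∑ a ∈ e, ∑ b ∈ f, tau F P e f a b ≤
      ∑ e ∈ P, ∑ f ∈ P.erase e, A e f := by
    refine Finset.sum_le_sum fun e he => Finset.sum_le_sum fun f hf => ?_
    rw [mem_erase] at hf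
    exact hA e he f hf.2 (Ne.symm hf.1)
  have h3 : ∑ e ∈ P, (4 * ∑ p ∈ e.powersetCard 2, ((Helper28.Res.dg F (VS P) p : ℤ) - 2) -
      6 * j - 6 * ty F x y e + 6 * ∑ v ∈ e, (((Gp F P x y v).card : ℤ) + (lb F P x y x v).card +
          (lb F P x y y v).card)) ≤ ∑ e ∈ P, B e :=
    Finset.sum_le_sum fun e he => hB e he
  have h4 : (F.card : ℤ) ≤ ((3 * s + 2).choose 3 : ℤ) := by linarith
  exact_mod_cast h4

end

end RouteA
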